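import Pool.Agent.Q109.D3.Gen

/-!
# Cross connectors along a ray
-/

namespace Q109.D3

open Classical Filter

variable {V : Type} {G : SimpleGraph V} {U : Ultrafilter ℕ}

theorem nc_of_inj (hU : ∀ n, ∀ᶠ i in (U : Filter ℕ), i ≠ n) {f : ℕ → V}
    (hf : Function.Injective f) : NC U f := by
  intro v
  by_cases h : ∃ n, f n = v
  · obtain ⟨n, rfl⟩ := h
    filter_upwards [hU n] with i hi
    exact fun h => hi (hf h)
  · push Not at h
    exact Filter.Eventually.of_forall h

theorem shift_inj {P : ℕ → V} (h : Function.Injective P) (c : ℕ) :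
    Function.Injective (fun k => P (k + c)) := by
  intro a b hab
  have := h hab
  omega

/-- generic values of `g` differ from any other function -/
theorem diff_of {g : ℕ → ℕ → V}
    (hg : ∀ᶠ i in (U : Filter ℕ), ∀ᶠ j in (U : Filter ℕ), ∀ᶠ k in (U : Filter ℕ), g i k ≠ g j k)
    (f : ℕ → V) : ∀ᶠ j in (U : Filter ℕ), ∀ᶠ k in (U : Filter ℕ), f k ≠ g j k := by
  by_contra hcon
  have h1 := flip2 hcon
  obtain ⟨i, hi, hi2⟩ := (h1.and hg).exists
  obtain ⟨j, hj, hj2⟩ := (h1.and hi2).exists
  obtain ⟨k, hk, hk1, hk2⟩ := (hi.and (hj.and hj2)).exists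
  rw [not_not] at hk hk1
  exact hk2 (hk.symm.trans hk1)

/-- cross connectors from `P i` to `P (k + β)` -/
structure XT (U : Ultrafilter ℕ) (G : SimpleGraph V) (P : ℕ → V) (β : ℕ) (X Y : ℕ → ℕ → V) :
    Prop where
  adj : ∀ᶠ i in (U : Filter ℕ), ∀ᶠ k in (U : Filter ℕ),
    G.Adj (P i) (X i k) ∧ G.Adj (X i k) (Y i k) ∧ G.Adj (Y i k) (P (k + β))
  no1 : ∀ᶠ i in (U : Filter ℕ), ∀ᶠ k in (U : Filter ℕ), ¬ G.Adj (P i) (P (k + β))
  no2 : ∀ᶠ i in (U : Filter ℕ), ∀ᶠ k in (U : Filter ℕ), ∀ z, G.Adj (P i) z →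
    ¬ G.Adj z (P (k + β))

theorem cross_classify (hU : ∀ n, ∀ᶠ i in (U : Filter ℕ), i ≠ n) (hD : DiamThree G) {P : ℕ → V}
    (hP : Function.Injective P) (hub : ∀ v, ¬ ∀ᶠ i in (U : Filter ℕ), G.Adj v (P i))
    {X Y : ℕ → ℕ → V} (hT : TT U G P X Y) (β : ℕ) :
    TypeE U G ∨ ∃ X' Y', XT U G P β X' Y' := by
  have : Nonempty V := ⟨P 0⟩
  have hp : NC U P := nc_of_inj hU hP
  have hq : NC U (fun k => P (k + β)) := nc_of_inj hU (shift_inj hP β)
  by_cases h1 : ∀ᶠ i in (U : Filter ℕ), ∀ᶠ k in (U : Filter ℕ), G.Adj (P i) (P (k + β))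
  · left
    refine typeE_of_two hp ?_
    filter_upwards [h1] with i hi
    filter_upwards [h1, hp (P i)] with j hj hji
    exact lk2_of hq (Ne.symm hji) (hi.and hj)
  · have no1 := flip2 h1
    by_cases h2 : ∀ᶠ i in (U : Filter ℕ), ∀ᶠ k in (U : Filter ℕ),
        ∃ z, G.Adj (P i) z ∧ G.Adj z (P (k + β))
    · left
      let f : ℕ → ℕ → V := fun i k =>
        Classical.epsilon (fun z => G.Adj (P i) z ∧ G.Adj z (P (k + β)))
      have hf : ∀ᶠ i in (U : Filter ℕ), ∀ᶠ k in (U : Filter ℕ),
          G.Adj (P i) (f i k) ∧ G.Adj (f i k) (P (k + β)) := by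
        filter_upwards [h2] with i hi
        filter_upwards [hi] with k hk
        exact Classical.epsilon_spec hk
      by_cases hnc : ∀ᶠ i in (U : Filter ℕ), NC U (f i)
      · exact typeE_of_mid hp hq hf hnc (fun _ => Or.inr (hT.fwd hp))
      · have hX' := flip1 hnc
        let a : ℕ → V := fun i => Classical.epsilon (fun v => ∀ᶠ k in (U : Filter ℕ), f i k = v)
        have ha : ∀ᶠ i in (U : Filter ℕ), ∀ᶠ k in (U : Filter ℕ), f i k = a i := by
          filter_upwards [hX'] with i hi
          rcases nc_or (U := U) (f i) with h | h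
          · exact absurd h hi
          · exact Classical.epsilon_spec h
        have hadj2 : ∀ᶠ i in (U : Filter ℕ), ∀ᶠ k in (U : Filter ℕ),
            G.Adj (P i) (a i) ∧ G.Adj (a i) (P (k + β)) := by
          filter_upwards [hf, ha] with i hi hi2
          filter_upwards [hi, hi2] with k hk hk2
          rw [← hk2]
          exact hk
        have hnca : NC U a := by
          intro v
          by_contra hv
          refine hub v ?_
          filter_upwards [flip1 hv, hadj2] with k hk hk2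
          rw [not_not] at hk
          obtain ⟨l, hl⟩ := hk2.exists
          rw [← hk]
          exact hl.1.symm
        refine typeE_of_two hnca ?_
        filter_upwards [hadj2] with i hi
        filter_upwards [hadj2, hnca (a i)] with j hj hji
        refine lk2_of hq (Ne.symm hji) ?_
        filter_upwards [hi, hj] with k hk hk2
        exact ⟨hk.2, hk2.2⟩
    · right
      have no2 := flip2 h2
      let R : ℕ → ℕ → V × V → Prop := fun i k xy =>
        G.Adj (P i) xy.1 ∧ G.Adj xy.1 xy.2 ∧ G.Adj xy.2 (P (k + β))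
      refine ⟨fun i k => (Classical.epsilon (R i k)).1, fun i k => (Classical.epsilon (R i k)).2,
        ?_, no1, ?_⟩
      · filter_upwards [no2, no1] with i hi hi1
        filter_upwards [hi, hi1, hq (P i)] with k hk hk2 hk3
        have hex : ∃ xy, R i k xy := by
          rcases hD (P i) (P (k + β)) with h | h | h | ⟨x, y, h⟩
          · exact absurd h.symm hk3
          · exact absurd h hk2
          · exact absurd h hk
          · exact ⟨(x, y), h⟩
        exact Classical.epsilon_spec hex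
      · filter_upwards [no2] with i hi
        filter_upwards [hi] with k hk
        intro z hz hz2
        exact hk ⟨z, hz, hz2⟩

theorem avoid_or (f : ℕ → V) : ∃ E : Finset V, (∀ e ∈ E, ∀ᶠ k in (U : Filter ℕ), f k = e) ∧
    ∀ F : Finset V, Disjoint F E → ∀ᶠ k in (U : Filter ℕ), f k ∉ F := by
  rcases nc_or (U := U) f with h | ⟨v, hv⟩
  · exact ⟨∅, by simp, fun F _ => h.fin F⟩
  · refine ⟨{v}, by simpa using hv, ?_⟩
    intro F hF
    filter_upwards [hv] with k hk
    rw [hk]
    intro h
    rw [Finset.disjoint_singleton_right] at hF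
    exact hF h

/-- the closing turn of length `6 + β` -/
theorem close_turn (hU : ∀ n, ∀ᶠ i in (U : Filter ℕ), i ≠ n) {P : ℕ → V}
    (hP : Function.Injective P) (hray : ∀ k, G.Adj (P k) (P (k + 1)))
    {X Y : ℕ → ℕ → V} (hT : TT U G P X Y) (β : ℕ) {X' Y' : ℕ → ℕ → V}
    (hX : XT U G P β X' Y')
    (hno1 : ∀ c ≤ β, ∀ᶠ i in (U : Filter ℕ), ∀ᶠ k in (U : Filter ℕ), ¬ G.Adj (P i) (P (k + c)))
    (hno2 : ∀ c < β, ∀ᶠ i in (U : Filter ℕ), ∀ᶠ k in (U : Filter ℕ), ∀ z, G.Adj (P i) z →
      ¬ G.Adj z (P (k + c))) :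
    ∀ᶠ i in (U : Filter ℕ), ∃ E : Finset V, P i ∉ E ∧ ∀ᶠ j in (U : Filter ℕ), ∀ F : Finset V,
      P i ∉ F → P j ∉ F → Disjoint F E →
      ∃ T, Pth G (P j) (P i) (3 + β + 3) T ∧ Disjoint T F := by
  have hp : NC U P := nc_of_inj hU hP
  have hno1' : ∀ᶠ i in (U : Filter ℕ), ∀ c ∈ Finset.range (β + 1), ∀ᶠ k in (U : Filter ℕ),
      ¬ G.Adj (P i) (P (k + c)) := by
    rw [Filter.eventually_all_finset]
    intro c hc
    exact hno1 c (by rw [Finset.mem_range] at hc; omega)
  have hno2' : ∀ᶠ i in (U : Filter ℕ), ∀ c ∈ Finset.range β, ∀ᶠ k in (U : Filter ℕ),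
      ∀ z, G.Adj (P i) z → ¬ G.Adj z (P (k + c)) := by
    rw [Filter.eventually_all_finset]
    intro c hc
    exact hno2 c (by rw [Finset.mem_range] at hc; omega)
  have hYP : ∀ᶠ j in (U : Filter ℕ), ∀ c ∈ Finset.range (β + 1), ∀ᶠ k in (U : Filter ℕ),
      P (k + c) ≠ Y j k := by
    rw [Filter.eventually_all_finset]
    intro c _
    exact diff_of hT.dY (fun k => P (k + c))
  have hXP : ∀ᶠ j in (U : Filter ℕ), ∀ c ∈ Finset.range (β + 1), ∀ᶠ k in (U : Filter ℕ),
      P (k + c) ≠ X j k := by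
    rw [Filter.eventually_all_finset]
    intro c _
    exact diff_of hT.dX (fun k => P (k + c))
  filter_upwards [hX.adj, hX.no1, hno1', hno2'] with i hi hi1 hic1 hic2
  obtain ⟨E₁, hE₁, hE₁'⟩ := avoid_or (U := U) (X' i)
  obtain ⟨E₂, hE₂, hE₂'⟩ := avoid_or (U := U) (Y' i)
  have hPE : P i ∉ E₁ ∪ E₂ := by
    intro h
    rcases Finset.mem_union.mp h with h | h
    · obtain ⟨k, hk, hk2⟩ := ((hE₁ _ h).and hi).exists
      rw [hk] at hk2
      exact hk2.1.ne rfl
    · obtain ⟨k, hk, hk2, hk3⟩ := ((hE₂ _ h).and (hi.and hi1)).exists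
      rw [hk] at hk2
      exact hk3 hk2.2.2
  refine ⟨E₁ ∪ E₂, hPE, ?_⟩
  filter_upwards [hT.adj, hT.ncX, hT.ncY, hT.no1, hYP, hXP, hp (P i), hp.fin (E₁ ∪ E₂),
    diff_of hT.dX (X' i), diff_of hT.dX (Y' i), diff_of hT.dY (X' i), diff_of hT.dY (Y' i)]
    with j hj hjX hjY hjn hjYP hjXP hji hjE d1 d2 d3 d4
  intro F hiF hjF hFE
  have hF1 : Disjoint (F ∪ {P i, P j}) E₁ := by
    rw [Finset.disjoint_left] at hFE ⊢
    intro y hy hyE
    simp only [Finset.mem_union, Finset.mem_insert, Finset.mem_singleton] at hy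
    rcases hy with hy | rfl | rfl
    · exact hFE hy (Finset.mem_union_left _ hyE)
    · exact hPE (Finset.mem_union_left _ hyE)
    · exact hjE (Finset.mem_union_left _ hyE)
  have hF2 : Disjoint (F ∪ {P i, P j}) E₂ := by
    rw [Finset.disjoint_left] at hFE ⊢
    intro y hy hyE
    simp only [Finset.mem_union, Finset.mem_insert, Finset.mem_singleton] at hy
    rcases hy with hy | rfl | rfl
    · exact hFE hy (Finset.mem_union_right _ hyE)
    · exact hPE (Finset.mem_union_right _ hyE)
    · exact hjE (Finset.mem_union_right _ hyE)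
  have hseg : ∀ᶠ k in (U : Filter ℕ), ∀ c ∈ Finset.range (β + 1), P (k + c) ∉ F ∪ {P i, P j} := by
    rw [Filter.eventually_all_finset]
    intro c _
    exact (nc_of_inj hU (shift_inj hP c)).fin _
  have hjYP' := (Filter.eventually_all_finset _).mpr hjYP
  have hjXP' := (Filter.eventually_all_finset _).mpr hjXP
  have hic1' := (Filter.eventually_all_finset _).mpr hic1
  have hic2' := (Filter.eventually_all_finset _).mpr hic2
  obtain ⟨k, hki, hkj, hkX', hkY', hkX, hkY, hks, hkYP, hkXP, hc1, hc2, hd1, hd2, hd3, hd4, hkn⟩ :=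
    (hi.and (hj.and ((hE₁' _ hF1).and ((hE₂' _ hF2).and ((hjX.fin (F ∪ {P i, P j})).and
      ((hjY.fin (F ∪ {P i, P j})).and (hseg.and (hjYP'.and (hjXP'.and (hic1'.and (hic2'.and
      (d1.and (d2.and (d3.and (d4.and hjn))))))))))))))).exists
  simp only [Finset.mem_union, Finset.mem_insert, Finset.mem_singleton, not_or]
    at hkX' hkY' hkX hkY hks
  have hk0 := hks 0 (by simp)
  rw [Nat.add_zero] at hk0
  have hXk : X j k ≠ P k := by
    intro h
    rw [← h] at hkn
    exact hkn hkj.1
  have hA := Pth.of_list (G := G) [X j k, Y j k, P k] (P j) (by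
    simp [hkj.1.ne, Ne.symm hkY.2.2, Ne.symm hk0.2.2, hkj.2.1.ne, hXk, hkj.2.2.ne])
    (by simp [hkj.1, hkj.2.1, hkj.2.2])
  have hB := Pth.of_fn (G := G) (fun c => P (k + c)) β (by
    intro c c' _ _ h
    have := hP h
    omega) (fun c _ => hray (k + c))
  have hkβ := hks β (by simp)
  have hC := Pth.of_list (G := G) [Y' i k, X' i k, P i] (P (k + β)) (by
    have h1 := hc1 β (by simp)
    have h2 : P (k + β) ≠ X' i k := by
      intro h
      rw [h] at h1
      exact h1 hki.1
    simp [hki.2.2.ne.symm, h2, hkβ.2.1, hki.2.1.ne.symm, hkY'.2.1, hki.1.ne.symm])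
    (by simp [hki.1.symm, hki.2.1.symm, hki.2.2.symm])
  have hA' : Pth G (P j) (P k) 3 {P j, X j k, Y j k, P k} := by simpa using hA
  have hC' : Pth G (P (k + β)) (P i) 3 {P (k + β), Y' i k, X' i k, P i} := by simpa using hC
  have hB' : Pth G (P k) (P (k + β)) β
      ((Finset.range (β + 1)).image (fun c => P (k + c))) := hB
  have hAB := hA'.concat hB' (by
    intro y hy hy'
    simp only [Finset.mem_insert, Finset.mem_singleton] at hy
    rw [Finset.mem_image] at hy'
    obtain ⟨c, hc, rfl⟩ := hy'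
    rcases hy with h | h | h | h
    · exact absurd h (hks c hc).2.2
    · exact absurd h (hkXP c hc)
    · exact absurd h (hkYP c hc)
    · exact h)
  have hABC := hAB.concat hC' (by
    intro y hy hy'
    simp only [Finset.mem_insert, Finset.mem_singleton] at hy'
    rcases hy' with h | h | h | h
    · exact h
    · subst h
      exfalso
      rcases Finset.mem_union.mp hy with h | h
      · simp only [Finset.mem_insert, Finset.mem_singleton] at h
        rcases h with h | h | h | h
        · exact hkY'.2.2 h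
        · exact hd2 h
        · exact hd4 h
        · by_cases hβ : β = 0
          · subst hβ
            rw [h] at hki
            exact hki.2.2.ne rfl
          · refine hc2 0 (by simp; omega) (X' i k) hki.1 ?_
            rw [Nat.add_zero, ← h]
            exact hki.2.1
      · rw [Finset.mem_image] at h
        obtain ⟨c, hc, h⟩ := h
        rw [Finset.mem_range] at hc
        by_cases hcβ : c = β
        · subst hcβ
          rw [h] at hki
          exact hki.2.2.ne rfl
        · refine hc2 c (by rw [Finset.mem_range]; omega) (X' i k) hki.1 ?_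
          rw [h]
          exact hki.2.1
    · subst h
      exfalso
      rcases Finset.mem_union.mp hy with h | h
      · simp only [Finset.mem_insert, Finset.mem_singleton] at h
        rcases h with h | h | h | h
        · exact hkX'.2.2 h
        · exact hd1 h
        · exact hd3 h
        · refine hc1 0 (by simp) ?_
          rw [Nat.add_zero, ← h]
          exact hki.1
      · rw [Finset.mem_image] at h
        obtain ⟨c, hc, h⟩ := h
        refine hc1 c hc ?_
        rw [h]
        exact hki.1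
    · subst h
      exfalso
      rcases Finset.mem_union.mp hy with h | h
      · simp only [Finset.mem_insert, Finset.mem_singleton] at h
        rcases h with h | h | h | h
        · exact hji h.symm
        · exact hkX.2.1 h.symm
        · exact hkY.2.1 h.symm
        · exact hk0.2.1 h.symm
      · rw [Finset.mem_image] at h
        obtain ⟨c, hc, h⟩ := h
        exact (hks c hc).2.1 h)
  refine ⟨_, hABC, ?_⟩
  rw [Finset.disjoint_left]
  intro y hy
  rcases Finset.mem_union.mp hy with hy | hy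
  · rcases Finset.mem_union.mp hy with hy | hy
    · simp only [Finset.mem_insert, Finset.mem_singleton] at hy
      rcases hy with rfl | rfl | rfl | rfl
      · exact hjF
      · exact hkX.1
      · exact hkY.1
      · exact hk0.1
    · rw [Finset.mem_image] at hy
      obtain ⟨c, hc, rfl⟩ := hy
      exact (hks c hc).1
  · simp only [Finset.mem_insert, Finset.mem_singleton] at hy
    rcases hy with rfl | rfl | rfl | rfl
    · exact hkβ.1
    · exact hkY'.1
    · exact hkX'.1
    · exact hiF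

theorem Fwd.three_mul {a : ℕ → V} (h : Fwd U G a 3) (x : ℕ) : Fwd U G a (3 * (x + 1)) := by
  induction x with
  | zero => exact h
  | succ x ih =>
    have := ih.add h
    have e : 3 * (x + 1 + 1) = 3 * (x + 1) + 3 := by ring
    rw [e]
    exact this

theorem Lnk.six_mul {a : ℕ → V} (ha : NC U a) (h : Lnk U G a 6) (x : ℕ) :
    Lnk U G a (6 * (x + 1)) := by
  induction x with
  | zero => exact h
  | succ x ih =>
    have := ih.add ha h
    have e : 6 * (x + 1 + 1) = 6 * (x + 1) + 6 := by ring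
    rw [e]
    exact this

/-- cycles of length `3 (x + 1) + 6 + β` -/
theorem close_cycle (hU : ∀ n, ∀ᶠ i in (U : Filter ℕ), i ≠ n) {P : ℕ → V}
    (hP : Function.Injective P) (hray : ∀ k, G.Adj (P k) (P (k + 1)))
    {X Y : ℕ → ℕ → V} (hT : TT U G P X Y) (β : ℕ) {X' Y' : ℕ → ℕ → V}
    (hX : XT U G P β X' Y')
    (hno1 : ∀ c ≤ β, ∀ᶠ i in (U : Filter ℕ), ∀ᶠ k in (U : Filter ℕ), ¬ G.Adj (P i) (P (k + c)))
    (hno2 : ∀ c < β, ∀ᶠ i in (U : Filter ℕ), ∀ᶠ k in (U : Filter ℕ), ∀ z, G.Adj (P i) z →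
      ¬ G.Adj z (P (k + c))) (x : ℕ) :
    ∃ v T, CycAt G v (3 * (x + 1) + (3 + β + 3)) T := by
  have hp : NC U P := nc_of_inj hU hP
  obtain ⟨i, ⟨E, hE, hi⟩, hi2⟩ := ((close_turn hU hP hray hT β hX hno1 hno2).and
    ((hT.fwd hp).three_mul x)).exists
  obtain ⟨j, hj, ⟨T₁, hT₁, hd₁⟩, hji⟩ := (hi.and ((hi2 E hE).and (hp (P i)))).exists
  obtain ⟨T₂, hT₂, hd₂⟩ := hj ((T₁.erase (P i)).erase (P j)) (by simp) (by simp) (by
    refine Finset.disjoint_of_subset_left ?_ hd₁
    exact (Finset.erase_subset _ _).trans (Finset.erase_subset _ _))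
  rw [Finset.disjoint_left] at hd₂
  obtain ⟨T, hT, -⟩ := CycAt.of_two hT₁ hT₂.symm (by
    intro y hy hy'
    by_contra hne
    push Not at hne
    exact hd₂ hy' (Finset.mem_erase.mpr ⟨hne.2, Finset.mem_erase.mpr ⟨hne.1, hy⟩⟩))
    (by omega) (by omega)
  exact ⟨_, T, hT⟩

/-- a ray without hubs in a graph of diameter three lies with all even cycles of length at
least ten -/
theorem nohub_cycles (hU : ∀ n, ∀ᶠ i in (U : Filter ℕ), i ≠ n) (hD : DiamThree G) {P : ℕ → V}
    (hP : Function.Injective P) (hray : ∀ k, G.Adj (P k) (P (k + 1)))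
    (hub : ∀ v, ¬ ∀ᶠ i in (U : Filter ℕ), G.Adj v (P i)) (r : ℕ) (hr : 5 ≤ r) :
    ∃ v T, CycAt G v (2 * r) T := by
  have hp : NC U P := nc_of_inj hU hP
  have hE : TypeE U G → ∃ v T, CycAt G v (2 * r) T := by
    intro h
    obtain ⟨a, _, h2⟩ := h.cycles
    obtain ⟨i, hi⟩ := (h2 r (by omega)).exists
    obtain ⟨T, hT, _⟩ := hi ∅ (by simp)
    exact ⟨_, T, hT⟩
  rcases classify hD hp hub with h | ⟨X, Y, hT⟩
  · exact hE h
  rcases cross_classify hU hD hP hub hT 1 with h | ⟨X₁, Y₁, h₁⟩
  · exact hE h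
  rcases cross_classify hU hD hP hub hT 2 with h | ⟨X₂, Y₂, h₂⟩
  · exact hE h
  obtain ⟨m, hm | hm | hm⟩ : ∃ m, r = 3 * m ∨ r = 3 * m + 1 ∨ r = 3 * m + 2 := ⟨r / 3, by omega⟩
  · -- multiples of six
    obtain ⟨y, rfl⟩ : ∃ y, m = y + 2 := ⟨m - 2, by omega⟩
    have h3 := CG.of hp (Lnk.fwd hp ((hT.lnk hp).six_mul hp y)) (hT.lnk hp) (by omega) (by omega)
    obtain ⟨i, hi⟩ := h3.exists
    obtain ⟨T, hT, _⟩ := hi ∅ (by simp)
    have e : 2 * r = 6 * (y + 1) + 6 := by omega
    rw [e]
    exact ⟨_, T, hT⟩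
  · -- two additional edges
    have h3 := close_cycle hU hP hray hT 2 h₂ (by
      intro c hc
      interval_cases c
      · exact hT.no1
      · exact h₁.no1
      · exact h₂.no1) (by
      intro c hc
      interval_cases c
      · exact hT.no2
      · exact h₁.no2) (2 * m - 3)
    have e : 2 * r = 3 * (2 * m - 3 + 1) + (3 + 2 + 3) := by omega
    rw [e]
    exact h3
  · -- one additional edge
    have h3 := close_cycle hU hP hray hT 1 h₁ (by
      intro c hc
      interval_cases c
      · exact hT.no1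
      · exact h₁.no1) (by
      intro c hc
      interval_cases c
      exact hT.no2) (2 * m - 2)
    have e : 2 * r = 3 * (2 * m - 2 + 1) + (3 + 1 + 3) := by omega
    rw [e]
    exact h3

end Q109.D3
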