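import Pool.Agent.Q109.D3.Ultra

/-!
# Cycles of length eight
-/

namespace Q109.D3

open Classical Filter

variable {V : Type} {G : SimpleGraph V} {U : Ultrafilter ℕ}

theorem eight_of_lnk {a : ℕ → V} (ha : NC U a) (h : Lnk U G a 4) : ∃ v T, CycAt G v 8 T := by
  obtain ⟨i, hi⟩ := (CG.of ha (Lnk.fwd ha h) h (by omega) (by omega)).exists
  obtain ⟨T, hT, _⟩ := hi ∅ (by simp)
  exact ⟨_, T, hT⟩

theorem eight_of_E (h : TypeE U G) : ∃ v T, CycAt G v 8 T := by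
  obtain ⟨a, _, h2⟩ := h.cycles
  obtain ⟨i, hi⟩ := (h2 4 le_rfl).exists
  obtain ⟨T, hT, _⟩ := hi ∅ (by simp)
  exact ⟨_, T, hT⟩

/-- private connectors of length two -/
theorem eight_of_mid {a b : ℕ → V} (ha : NC U a) (hb : NC U b)
    (hub : ∀ v, ¬ ∀ᶠ i in (U : Filter ℕ), G.Adj v (b i))
    (hex : ∀ᶠ i in (U : Filter ℕ), ∀ᶠ k in (U : Filter ℕ),
      ∃ z, G.Adj (a i) z ∧ G.Adj z (b k)) : ∃ v T, CycAt G v 8 T := by
  have : Nonempty V := ⟨a 0⟩
  let f : ℕ → ℕ → V := fun i k => Classical.epsilon (fun z => G.Adj (a i) z ∧ G.Adj z (b k))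
  have hadj : ∀ᶠ i in (U : Filter ℕ), ∀ᶠ k in (U : Filter ℕ),
      G.Adj (a i) (f i k) ∧ G.Adj (f i k) (b k) := by
    filter_upwards [hex] with i hi
    filter_upwards [hi] with k hk
    exact Classical.epsilon_spec hk
  have hf : ∀ᶠ i in (U : Filter ℕ), NC U (f i) := by
    filter_upwards [hadj] with i hi
    intro v
    by_contra hv
    refine hub v ?_
    filter_upwards [flip1 hv, hi] with k hk hk2
    rw [not_not] at hk
    rw [← hk]
    exact hk2.2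
  rcases KT ha (by
    filter_upwards [hadj] with i hi
    filter_upwards [hi] with k hk
    exact hk.1) hf with h | h
  · have h4 : Lnk U G a 4 := by
      filter_upwards [h, hadj, hf] with i hi hi2 hi3
      filter_upwards [hi, hadj, hf, ha (a i)] with j hj hj2 hj3 hji
      intro F h1 h2
      obtain ⟨k, hk, ⟨h5, h6⟩, ⟨h7, h8⟩, h9, h10, h11⟩ := (hj.and (hi2.and (hj2.and
        ((hi3.fin (F ∪ {a i, a j})).and ((hj3.fin (F ∪ {a i, a j})).and
        (hb.fin (F ∪ {a i, a j}))))))).exists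
      simp only [Finset.mem_union, Finset.mem_insert, Finset.mem_singleton, not_or] at h9 h10 h11
      have h12 := Pth.of_list (G := G) [f i k, b k, f j k, a j] (a i) (by
        simp [h5.ne, Ne.symm h11.2.1, Ne.symm h10.2.1, Ne.symm hji, h6.ne, hk, h9.2.2,
          h8.ne.symm, h11.2.2, h7.ne.symm]) (by simp [h5, h6, h8.symm, h7.symm])
      refine ⟨_, h12, ?_⟩
      rw [Finset.disjoint_left]
      intro y hy
      simp only [List.mem_toFinset, List.mem_cons, List.not_mem_nil, or_false] at hy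
      rcases hy with rfl | rfl | rfl | rfl | rfl
      · exact h1
      · exact h9.1
      · exact h11.1
      · exact h10.1
      · exact h2
    exact eight_of_lnk ha h4
  · exact eight_of_E h

theorem eight_of_list (v : V) (l : List V) (hl : l.length = 7) (hnd : (v :: l).Nodup)
    (hch : List.IsChain G.Adj (v :: l)) (hlast : G.Adj ((v :: l).getLast (by simp)) v) :
    ∃ v T, CycAt G v 8 T := by
  have h1 := Pth.of_list (G := G) l v hnd hch
  rw [hl] at h1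
  exact ⟨v, _, by norm_num, _, h1, hlast⟩

theorem TT.eight {P : ℕ → V} {X Y : ℕ → ℕ → V} (hp : NC U P) (hT : TT U G P X Y)
    (hD : DiamThree G) (hub : ∀ v, ¬ ∀ᶠ i in (U : Filter ℕ), G.Adj v (P i)) :
    ∃ v T, CycAt G v 8 T := by
  have : Nonempty V := ⟨P 0⟩
  have hub' : ∀ v, ∀ᶠ i in (U : Filter ℕ), ¬ G.Adj v (P i) := fun v => flip1 (hub v)
  -- distance from the connector vertices to the sequence
  by_cases hX2 : ∀ᶠ i in (U : Filter ℕ), ∀ᶠ k in (U : Filter ℕ), ∀ᶠ m in (U : Filter ℕ),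
      ∃ z, G.Adj (X i k) z ∧ G.Adj z (P m)
  · obtain ⟨i, hi, hi2⟩ := (hX2.and hT.ncX).exists
    exact eight_of_mid hi2 hp hub hi
  by_cases hY2 : ∀ᶠ i in (U : Filter ℕ), ∀ᶠ k in (U : Filter ℕ), ∀ᶠ m in (U : Filter ℕ),
      ∃ z, G.Adj (Y i k) z ∧ G.Adj z (P m)
  · obtain ⟨i, hi, hi2⟩ := (hY2.and hT.ncY).exists
    exact eight_of_mid hi2 hp hub hi
  have noX := flip3 hX2
  have noY := flip3 hY2
  let R : ℕ → ℕ → ℕ → V × V → Prop := fun i k m zw =>
    G.Adj (X i k) zw.1 ∧ G.Adj zw.1 zw.2 ∧ G.Adj zw.2 (P m)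
  let Z : ℕ → ℕ → ℕ → V := fun i k m => (Classical.epsilon (R i k m)).1
  let W : ℕ → ℕ → ℕ → V := fun i k m => (Classical.epsilon (R i k m)).2
  have hZW : ∀ᶠ i in (U : Filter ℕ), ∀ᶠ k in (U : Filter ℕ), ∀ᶠ m in (U : Filter ℕ),
      G.Adj (X i k) (Z i k m) ∧ G.Adj (Z i k m) (W i k m) ∧ G.Adj (W i k m) (P m) := by
    filter_upwards [noX] with i hi
    filter_upwards [hi] with k hk
    filter_upwards [hk, hub' (X i k), hp (X i k)] with m hm hm2 hm3
    have hex : ∃ zw, R i k m zw := by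
      rcases hD (X i k) (P m) with h | h | h | ⟨x, y, h⟩
      · exact absurd h.symm hm3
      · exact absurd h hm2
      · exact absurd h hm
      · exact ⟨(x, y), h⟩
    exact Classical.epsilon_spec hex
  by_cases hK : ∀ᶠ i in (U : Filter ℕ), ∀ᶠ k in (U : Filter ℕ), ∀ᶠ m in (U : Filter ℕ),
      Z i k m = X k m
  · refine eight_of_lnk hp ?_
    filter_upwards [hK, hZW, hT.adj, hT.ncX, hT.dX] with i hi1 hi2 hi3 hi4 hi5
    filter_upwards [hK, hZW, hT.adj, hT.ncX, hi5, hp (P i)] with j hj1 hj2 hj3 hj4 hj5 hji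
    intro F h1 h2
    obtain ⟨k, a1, a2, a3, b1, b2, b3, c1, c2, c3, c4⟩ := (hi1.and (hi2.and (hi3.and (hj1.and
      (hj2.and (hj3.and ((hi4.fin (F ∪ {P i, P j})).and ((hj4.fin (F ∪ {P i, P j})).and
      (hT.ncX.and hj5))))))))).exists
    obtain ⟨m, d1, d2, d3, d4, d5⟩ := (a1.and (a2.and (b1.and (b2.and
      (c3.fin (F ∪ {P i, P j, X i k, X j k})))))).exists
    rw [d1] at d2
    rw [d3] at d4
    simp only [Finset.mem_union, Finset.mem_insert, Finset.mem_singleton, not_or] at c1 c2 d5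
    have h12 := Pth.of_list (G := G) [X i k, X k m, X j k, P j] (P i) (by
      simp [a3.1.ne, Ne.symm d5.2.1, Ne.symm c2.2.1, Ne.symm hji, d2.1.ne, c4, c1.2.2,
        d4.1.ne.symm, d5.2.2.1, b3.1.ne.symm]) (by simp [a3.1, d2.1, d4.1.symm, b3.1.symm])
    refine ⟨_, h12, ?_⟩
    rw [Finset.disjoint_left]
    intro y hy
    simp only [List.mem_toFinset, List.mem_cons, List.not_mem_nil, or_false] at hy
    rcases hy with rfl | rfl | rfl | rfl | rfl
    · exact h1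
    · exact c1.1
    · exact d5.1
    · exact c2.1
    · exact h2
  have nK := flip3 hK
  by_cases hW : ∀ᶠ i in (U : Filter ℕ), ∀ᶠ k in (U : Filter ℕ), ∀ᶠ m in (U : Filter ℕ),
      W i k m = Y k m
  swap
  · -- cycle A
    have nW := flip3 hW
    obtain ⟨i, i1, i2, i3, i4, i5, i6, i7, i8⟩ := (hT.adj.and (hT.no1.and (hT.no2.and (noX.and
      (noY.and (hZW.and (nK.and nW))))))).exists
    obtain ⟨k, k1, k2, k3, k4, k5, k6, k7, k8, l1, l2, l3, l4, l5⟩ := (i1.and (i2.and (i3.and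
      (i4.and (i5.and (i6.and (i7.and (i8.and (hT.adj.and (hT.no1.and (hT.no2.and
      (hT.ncX.and hT.ncY)))))))))))).exists
    obtain ⟨m, m1, m2, m3, m4, m5, m6, m7, m8, m9, m10, m11, m12, m13⟩ := (k4.and (k5.and
      (k6.and (k7.and (k8.and (l1.and (l2.and (l3.and ((l4.fin {X i k, Y i k, P k}).and
      ((l5.fin {X i k, Y i k, P k}).and ((hp.fin {X i k, Y i k, P k}).and
      ((hub' (X i k)).and (hub' (Y i k)))))))))))))).exists
    simp only [Finset.mem_insert, Finset.mem_singleton, not_or] at m9 m10 m11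
    have e1 : X i k ≠ P k := fun h => k2 (h ▸ k1.1)
    have e2 : X i k ≠ W i k m := fun h => m12 (h ▸ m3.2.2)
    have e3 : Y i k ≠ W i k m := fun h => m13 (h ▸ m3.2.2)
    have e4 : Y i k ≠ Z i k m := fun h => m2 ⟨_, h ▸ m3.2.1, m3.2.2⟩
    have e5 : P k ≠ W i k m := fun h => m7 (h ▸ m3.2.2)
    have e6 : P k ≠ Z i k m := fun h => k3 _ k1.1 (h ▸ m3.1)
    have e7 : X k m ≠ P m := fun h => m7 (h ▸ m6.1)
    have e8 : X k m ≠ W i k m := fun h => m8 _ m6.1 (h ▸ m3.2.2)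
    have e9 : Y k m ≠ Z i k m := fun h => m1 ⟨_, h ▸ m3.1, m6.2.2⟩
    have e10 : P m ≠ Z i k m := fun h => m12 (h ▸ m3.1)
    refine eight_of_list (X i k) [Y i k, P k, X k m, Y k m, P m, W i k m, Z i k m] rfl ?_ ?_ ?_
    · simp [k1.2.1.ne, e1, Ne.symm m9.1, Ne.symm m10.1, Ne.symm m11.1, e2, m3.1.ne,
        k1.2.2.ne, Ne.symm m9.2.1, Ne.symm m10.2.1, Ne.symm m11.2.1, e3, e4,
        Ne.symm m9.2.2, Ne.symm m10.2.2, Ne.symm m11.2.2, e5, e6,
        m6.2.1.ne, e7, e8, Ne.symm m4, m6.2.2.ne, Ne.symm m5, e9, m3.2.2.ne.symm, e10,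
        m3.2.1.ne.symm]
    · simp [k1.2.1, k1.2.2, m6.1, m6.2.1, m6.2.2, m3.2.2.symm, m3.2.1.symm]
    · simpa using m3.1.symm
  -- from now on the last connector vertex is shared
  have hZY : ∀ᶠ i in (U : Filter ℕ), ∀ᶠ k in (U : Filter ℕ), ∀ᶠ m in (U : Filter ℕ),
      G.Adj (X i k) (Z i k m) ∧ G.Adj (Z i k m) (Y k m) := by
    filter_upwards [hZW, hW] with i hi hi2
    filter_upwards [hi, hi2] with k hk hk2
    filter_upwards [hk, hk2] with m hm hm2
    rw [hm2] at hm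
    exact ⟨hm.1, hm.2.1⟩
  by_cases hZ : ∀ᶠ i in (U : Filter ℕ), ∀ᶠ j in (U : Filter ℕ), ∀ᶠ k in (U : Filter ℕ),
      ∀ᶠ m in (U : Filter ℕ), Z i k m = Z j k m
  swap
  · -- cycle B
    have nZ : ∀ᶠ i in (U : Filter ℕ), ∀ᶠ j in (U : Filter ℕ), ∀ᶠ k in (U : Filter ℕ),
        ∀ᶠ m in (U : Filter ℕ), Z i k m ≠ Z j k m := by
      filter_upwards [flip1 hZ] with i hi
      exact flip3 hi
    obtain ⟨i, i1, i2, i3, i4, i5, i6, i7, i8, i9⟩ := (hT.adj.and (hT.no1.and (hT.no2.and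
      (noX.and (noY.and (hZY.and (nZ.and (hT.dX.and hT.dY)))))))).exists
    obtain ⟨j, j1, j2, j3, j4, j5, j6, j7, j8, j9⟩ := (hT.adj.and (hT.no1.and (hT.no2.and
      (noX.and (noY.and (hZY.and (i7.and (i8.and i9)))))))).exists
    obtain ⟨k, a1, a2, a3, a4, a5, a6, b1, b2, b3, b4, b5, b6, c1, c2, c3, c4, c5⟩ :=
      (i1.and (i2.and (i3.and (i4.and (i5.and (i6.and (j1.and (j2.and (j3.and (j4.and (j5.and
      (j6.and (j7.and (j8.and (j9.and (hT.adj.and hT.ncY)))))))))))))))).exists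
    obtain ⟨m, d1, d2, d3, d4, d5, d6, d7, d8, d9⟩ := (a4.and (a5.and (a6.and (b4.and (b5.and
      (b6.and (c1.and (c4.and (c5.fin {X i k, Y i k, P k, Y j k, X j k}))))))))).exists
    simp only [Finset.mem_insert, Finset.mem_singleton, not_or] at d9
    have e1 : Z i k m ≠ Y i k := fun h => d2 ⟨_, h ▸ d3.2, d8.2.2⟩
    have e2 : Z i k m ≠ P k := fun h => a3 _ a1.1 (h ▸ d3.1)
    have e3 : Z i k m ≠ Y j k := fun h => d5 ⟨_, h ▸ d3.2, d8.2.2⟩
    have e4 : Z i k m ≠ X j k := fun h => d4 ⟨_, h ▸ d3.2, d8.2.2⟩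
    have e5 : X i k ≠ P k := fun h => a2 (h ▸ a1.1)
    have e6 : X i k ≠ Y j k := fun h => a3 _ a1.1 (h ▸ b1.2.2)
    have e7 : X i k ≠ Z j k m := fun h => d1 ⟨_, h ▸ d6.2, d8.2.2⟩
    have e8 : Y i k ≠ X j k := fun h => b3 _ b1.1 (h ▸ a1.2.2)
    have e9 : Y i k ≠ Z j k m := fun h => d2 ⟨_, h ▸ d6.2, d8.2.2⟩
    have e10 : P k ≠ X j k := fun h => b2 (h ▸ b1.1)
    have e11 : P k ≠ Z j k m := fun h => b3 _ b1.1 (h ▸ d6.1)
    have e12 : Y j k ≠ Z j k m := fun h => d5 ⟨_, h ▸ d6.2, d8.2.2⟩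
    refine eight_of_list (Y k m) [Z i k m, X i k, Y i k, P k, Y j k, X j k, Z j k m] rfl ?_ ?_ ?_
    · simp [d3.2.ne.symm, d9.1, d9.2.1, d9.2.2.1, d9.2.2.2.1, d9.2.2.2.2, d6.2.ne.symm,
        d3.1.ne.symm, e1, e2, e3, e4, d7, a1.2.1.ne, e5, e6, c2, e7, a1.2.2.ne, c3, e8, e9,
        b1.2.2.ne.symm, e10, e11, b1.2.1.ne.symm, e12, d6.1.ne]
    · simp [d3.2.symm, d3.1.symm, a1.2.1, a1.2.2, b1.2.2.symm, b1.2.1.symm, d6.1]
    · simpa using d6.2
  -- cycle C or four-links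
  by_cases hN : ∀ᶠ i in (U : Filter ℕ), ∀ v, ∀ᶠ k in (U : Filter ℕ), ∀ᶠ m in (U : Filter ℕ),
      Z i k m ≠ v
  · refine eight_of_lnk hp ?_
    filter_upwards [hZ, hN, hZY, hT.adj, hT.ncX, hT.dX] with i hi1 hi2 hi3 hi4 hi5 hi6
    filter_upwards [hi1, hZY, hT.adj, hT.ncX, hi6, hp (P i)] with j hj1 hj2 hj3 hj4 hj5 hji
    intro F h1 h2
    have hfin : ∀ᶠ k in (U : Filter ℕ), ∀ᶠ m in (U : Filter ℕ), Z i k m ∉ F ∪ {P i, P j} := by
      have h3 : ∀ᶠ k in (U : Filter ℕ), ∀ v ∈ F ∪ {P i, P j}, ∀ᶠ m in (U : Filter ℕ),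
          Z i k m ≠ v := by
        rw [Filter.eventually_all_finset]
        intro v _
        exact hi2 v
      filter_upwards [h3] with k hk
      have h4 : ∀ᶠ m in (U : Filter ℕ), ∀ v ∈ F ∪ {P i, P j}, Z i k m ≠ v := by
        rw [Filter.eventually_all_finset]
        exact hk
      filter_upwards [h4] with m hm hmem
      exact hm _ hmem rfl
    obtain ⟨k, a1, a2, a3, a4, a5, a6, a7, a8⟩ := (hj1.and (hi3.and (hj2.and (hi4.and (hj3.and
      (hfin.and ((hi5.fin (F ∪ {P i, P j})).and ((hj4.fin (F ∪ {P i, P j})).and hj5)))))))).exists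
    obtain ⟨m, b1, b2, b3, b4⟩ := (a1.and (a2.and (a3.and a6))).exists
    rw [← b1] at b3
    simp only [Finset.mem_union, Finset.mem_insert, Finset.mem_singleton, not_or] at a7 a8 b4
    have h12 := Pth.of_list (G := G) [X i k, Z i k m, X j k, P j] (P i) (by
      simp [a4.1.ne, Ne.symm b4.2.1, Ne.symm a8.1.2.1, Ne.symm hji, b2.1.ne, a8.2, a7.2.2,
        b3.1.ne.symm, b4.2.2, a5.1.ne.symm]) (by simp [a4.1, b2.1, b3.1.symm, a5.1.symm])
    refine ⟨_, h12, ?_⟩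
    rw [Finset.disjoint_left]
    intro y hy
    simp only [List.mem_toFinset, List.mem_cons, List.not_mem_nil, or_false] at hy
    rcases hy with rfl | rfl | rfl | rfl | rfl
    · exact h1
    · exact a7.1
    · exact b4.1
    · exact a8.1.1
    · exact h2
  · -- cycle C
    obtain ⟨i0, hi0, hi1⟩ := ((flip1 hN).and hZ).exists
    push Not at hi0
    obtain ⟨v, hv⟩ := hi0
    have hv' : ∀ᶠ k in (U : Filter ℕ), ∀ᶠ m in (U : Filter ℕ), Z i0 k m = v := hv
    have hvX : ∀ᶠ j in (U : Filter ℕ), ∀ᶠ k in (U : Filter ℕ), G.Adj (X j k) v := by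
      filter_upwards [hi1, hZY] with j hj hj2
      filter_upwards [hj, hj2, hv'] with k hk hk2 hk3
      obtain ⟨m, hm, hm2, hm3⟩ := (hk.and (hk2.and hk3)).exists
      rw [← hm3, hm]
      exact hm2.1
    obtain ⟨i, i1, i2, i3, i4, i5, i6, i7, i8, i9⟩ := (hT.adj.and (hT.no1.and (hT.no2.and
      (hT.ncX.and (hT.ncY.and (hT.dX.and (hT.dY.and (hvX.and (hp v))))))))).exists
    obtain ⟨l, l1, l2, l3, l4, l5, l6, l7, l8⟩ := (hT.adj.and (hT.no1.and (hT.no2.and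
      (hT.ncX.and (hT.ncY.and (i6.and (i7.and hvX))))))).exists
    obtain ⟨j, a1, a2, a3, a4, a5, b1, b2, b3, b4, b5, b6, b7, b8, b9⟩ := (i1.and (i2.and
      (i3.and ((i5.fin {v, P i}).and (i8.and (l1.and (l2.and (l3.and ((l4.fin {P i}).and
      ((l5.fin {v, P i}).and (l6.and (l7.and (l8.and (hp.fin {v, P i})))))))))))))).exists
    obtain ⟨k, k1, k2, k3⟩ := (i1.and (i8.and
      (i4.fin {v, P i, X i j, Y i j, P j, Y l j, X l j}))).exists
    simp only [Finset.mem_insert, Finset.mem_singleton, not_or] at a4 b4 b5 b9 k3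
    have e1 : X i j ≠ P j := fun h => a2 (h ▸ a1.1)
    have e2 : X i j ≠ Y l j := fun h => a3 _ a1.1 (h ▸ b1.2.2)
    have e3 : Y i j ≠ X l j := fun h => b3 _ b1.1 (h ▸ a1.2.2)
    have e4 : P j ≠ X l j := fun h => b2 (h ▸ b1.1)
    refine eight_of_list v [X i k, P i, X i j, Y i j, P j, Y l j, X l j] rfl ?_ ?_ ?_
    · simp [k2.ne.symm, Ne.symm i9, a5.ne.symm, Ne.symm a4.1, Ne.symm b9.1, Ne.symm b5.1,
        b8.ne.symm, k3.2.1, k3.2.2.1, k3.2.2.2.1, k3.2.2.2.2.1, k3.2.2.2.2.2.1, k3.2.2.2.2.2.2,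
        a1.1.ne, Ne.symm a4.2, Ne.symm b9.2, Ne.symm b5.2, Ne.symm b4, a1.2.1.ne, e1, e2, b6,
        a1.2.2.ne, b7, e3, b1.2.2.ne.symm, e4, b1.2.1.ne.symm]
    · simp [k2.symm, k1.1.symm, a1.1, a1.2.1, a1.2.2, b1.2.2.symm, b1.2.1.symm]
    · simpa using b8

/-- **Infinite form, all lengths.** -/
theorem ray_cycles_all (hU : ∀ n, ∀ᶠ i in (U : Filter ℕ), i ≠ n) (hD : DiamThree G) {P : ℕ → V}
    (hP : Function.Injective P) (hray : ∀ k, G.Adj (P k) (P (k + 1))) (r : ℕ) (hr : 4 ≤ r) :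
    ∃ v T, CycAt G v (2 * r) T := by
  rcases Nat.lt_or_ge r 5 with h5 | h5
  · have : r = 4 := by omega
    subst this
    by_cases hub : ∀ c, ∃ x, Hub U G P c x
    · exact hub_cycles hU hP hray hub 4 le_rfl
    · push Not at hub
      obtain ⟨s, hs⟩ := hub
      have hp : NC U (fun k => P (k + s)) := nc_of_inj hU (shift_inj hP s)
      rcases classify hD hp hs with h | ⟨X, Y, hT⟩
      · exact eight_of_E h
      · exact hT.eight hp hD hs
  · exact ray_cycles hU hD hP hray r h5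

theorem even_bounded (r : ℕ) (hr : 4 ≤ r) : ∃ c : ℕ, ∀ (V : Type) [Fintype V]
    (H : SimpleGraph V), (SimpleGraph.cycleGraph (2 * r)).Free H → DiamThree H →
    TreedepthLe H c := by
  apply bounded_of_infinite
  rintro V H hD ⟨P, hP, hray⟩
  obtain ⟨v, T, hT⟩ := ray_cycles_all HU_ne hD hP hray r hr
  exact contained_of_cyc hT

end Q109.D3
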