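import Pool.Agent.Q109.D3.Path

/-!
# Generic sequences of vertices along an ultrafilter
-/

namespace Q109.D3

open Classical Filter

variable {V : Type} {G : SimpleGraph V} {U : Ultrafilter ℕ}

theorem Pth.of_list (l : List V) : ∀ u : V, (u :: l).Nodup → List.IsChain G.Adj (u :: l) →
    Pth G u ((u :: l).getLast (by simp)) l.length (u :: l).toFinset := by
  induction l with
  | nil =>
    intro u _ _
    simpa using Pth.nil (G := G) u
  | cons v l ih =>
    intro u h1 h2
    rw [List.nodup_cons] at h1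
    rw [List.isChain_cons_cons] at h2
    have h3 := ih v h1.2 h2.2
    have h4 : u ∉ (v :: l).toFinset := by
      rw [List.mem_toFinset]
      exact h1.1
    have h5 := Pth.cons u v _ _ _ h4 h2.1 h3
    rw [List.toFinset_cons, List.getLast_cons (by simp), List.length_cons]
    exact h5

/-! ### ultrafilter quantifiers -/

theorem flip1 {P : ℕ → Prop} (h : ¬ ∀ᶠ i in (U : Filter ℕ), P i) :
    ∀ᶠ i in (U : Filter ℕ), ¬ P i := by
  rwa [← Ultrafilter.eventually_not] at h

theorem flip2 {P : ℕ → ℕ → Prop} (h : ¬ ∀ᶠ i in (U : Filter ℕ), ∀ᶠ j in (U : Filter ℕ), P i j) :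
    ∀ᶠ i in (U : Filter ℕ), ∀ᶠ j in (U : Filter ℕ), ¬ P i j := by
  filter_upwards [flip1 h] with i hi
  exact flip1 hi

theorem flip3 {P : ℕ → ℕ → ℕ → Prop}
    (h : ¬ ∀ᶠ i in (U : Filter ℕ), ∀ᶠ j in (U : Filter ℕ), ∀ᶠ k in (U : Filter ℕ), P i j k) :
    ∀ᶠ i in (U : Filter ℕ), ∀ᶠ j in (U : Filter ℕ), ∀ᶠ k in (U : Filter ℕ), ¬ P i j k := by
  filter_upwards [flip1 h] with i hi
  exact flip2 hi

/-- a sequence which is not generically constant -/
def NC (U : Ultrafilter ℕ) (a : ℕ → V) : Prop := ∀ v, ∀ᶠ i in (U : Filter ℕ), a i ≠ v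

theorem NC.fin {a : ℕ → V} (h : NC U a) (F : Finset V) : ∀ᶠ i in (U : Filter ℕ), a i ∉ F := by
  have h1 : ∀ᶠ i in (U : Filter ℕ), ∀ v ∈ F, a i ≠ v := by
    rw [Filter.eventually_all_finset]
    intro v _
    exact h v
  filter_upwards [h1] with i hi hF
  exact hi _ hF rfl

theorem nc_or (a : ℕ → V) : NC U a ∨ ∃ v, ∀ᶠ i in (U : Filter ℕ), a i = v := by
  by_cases h : NC U a
  · exact Or.inl h
  · right
    unfold NC at h
    push Not at h
    exact h

/-- generically linked sequence -/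
def Lnk (U : Ultrafilter ℕ) (G : SimpleGraph V) (a : ℕ → V) (n : ℕ) : Prop :=
  ∀ᶠ i in (U : Filter ℕ), ∀ᶠ j in (U : Filter ℕ), Lk G n (a i) (a j)

/-- forward connections -/
def Fwd (U : Ultrafilter ℕ) (G : SimpleGraph V) (a : ℕ → V) (n : ℕ) : Prop :=
  ∀ᶠ i in (U : Filter ℕ), ∀ F : Finset V, a i ∉ F → ∀ᶠ j in (U : Filter ℕ),
    ∃ T, Pth G (a i) (a j) n T ∧ Disjoint T F

/-- generic cycles -/
def CG (U : Ultrafilter ℕ) (G : SimpleGraph V) (a : ℕ → V) (N : ℕ) : Prop :=
  ∀ᶠ i in (U : Filter ℕ), ∀ F : Finset V, a i ∉ F → ∃ T, CycAt G (a i) N T ∧ Disjoint T F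

theorem Lnk.add {a : ℕ → V} {n m : ℕ} (ha : NC U a) (hn : Lnk U G a n) (hm : Lnk U G a m) :
    Lnk U G a (n + m) := by
  filter_upwards [hn] with i hi
  filter_upwards [hm, ha (a i)] with j hj hji
  intro F h1 h2
  obtain ⟨l, hl1, hl2, hl3⟩ := (hi.and (hj.and (ha.fin (F ∪ {a i, a j})))).exists
  simp only [Finset.mem_union, Finset.mem_insert, Finset.mem_singleton, not_or] at hl3
  obtain ⟨hlF, hli, hlj⟩ := hl3
  obtain ⟨T₁, hT₁, hd₁⟩ := hl1 (F ∪ {a j}) (by simp [h1, Ne.symm hji]) (by simp [hlF, hlj])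
  rw [Finset.disjoint_left] at hd₁
  obtain ⟨T₂, hT₂, hd₂⟩ := hl2 (F ∪ T₁.erase (a l)) (by
    rw [Finset.mem_union, not_or]
    refine ⟨h2, fun h => ?_⟩
    exact hd₁ (Finset.mem_of_mem_erase h) (by simp)) (by simp [hlF])
  rw [Finset.disjoint_left] at hd₂
  refine ⟨T₁ ∪ T₂, hT₁.concat hT₂.symm ?_, ?_⟩
  · intro y hy hy'
    by_contra hne
    exact hd₂ hy' (Finset.mem_union_right _ (Finset.mem_erase.mpr ⟨hne, hy⟩))
  · rw [Finset.disjoint_left]
    intro y hy hyF
    rcases Finset.mem_union.mp hy with h | h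
    · exact hd₁ h (Finset.mem_union_left _ hyF)
    · exact hd₂ h (Finset.mem_union_left _ hyF)

theorem Lnk.fwd {a : ℕ → V} {n : ℕ} (ha : NC U a) (hn : Lnk U G a n) : Fwd U G a n := by
  filter_upwards [hn] with i hi
  intro F hF
  filter_upwards [hi, ha.fin F] with j hj hjF
  exact hj F hF hjF

theorem Fwd.add {a : ℕ → V} {n m : ℕ} (hn : Fwd U G a n) (hm : Fwd U G a m) :
    Fwd U G a (n + m) := by
  filter_upwards [hn] with i hi
  intro F hF
  obtain ⟨l, ⟨T₁, hT₁, hd₁⟩, hl⟩ := ((hi F hF).and hm).exists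
  rw [Finset.disjoint_left] at hd₁
  filter_upwards [hl (F ∪ T₁.erase (a l)) (by
    rw [Finset.mem_union, not_or]
    exact ⟨hd₁ hT₁.right, Finset.notMem_erase _ _⟩)] with j hj
  obtain ⟨T₂, hT₂, hd₂⟩ := hj
  rw [Finset.disjoint_left] at hd₂
  refine ⟨T₁ ∪ T₂, hT₁.concat hT₂ ?_, ?_⟩
  · intro y hy hy'
    by_contra hne
    exact hd₂ hy' (Finset.mem_union_right _ (Finset.mem_erase.mpr ⟨hne, hy⟩))
  · rw [Finset.disjoint_left]
    intro y hy hyF
    rcases Finset.mem_union.mp hy with h | h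
    · exact hd₁ h hyF
    · exact hd₂ h (Finset.mem_union_left _ hyF)

theorem CG.of {a : ℕ → V} {n m : ℕ} (ha : NC U a) (hn : Fwd U G a n) (hm : Lnk U G a m)
    (h2 : 2 ≤ m) (h3 : 3 ≤ n + m) : CG U G a (n + m) := by
  filter_upwards [hn, hm] with i hi hi'
  intro F hF
  obtain ⟨j, ⟨T₁, hT₁, hd₁⟩, hj, hjF⟩ := ((hi F hF).and (hi'.and (ha.fin F))).exists
  rw [Finset.disjoint_left] at hd₁
  obtain ⟨T₂, hT₂, hd₂⟩ := hj (F ∪ (T₁.erase (a i)).erase (a j)) (by simp [hF])
    (by simp [hjF])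
  rw [Finset.disjoint_left] at hd₂
  obtain ⟨T, hT, hsub⟩ := CycAt.of_two hT₁ hT₂ (by
    intro y hy hy'
    by_contra hne
    push Not at hne
    exact hd₂ hy' (Finset.mem_union_right _
      (Finset.mem_erase.mpr ⟨hne.2, Finset.mem_erase.mpr ⟨hne.1, hy⟩⟩))) h2 h3
  refine ⟨T, hT, ?_⟩
  rw [Finset.disjoint_left]
  intro y hy hyF
  rcases Finset.mem_union.mp (hsub hy) with h | h
  · exact hd₁ h hyF
  · exact hd₂ h (Finset.mem_union_left _ hyF)

/-- type `E` -/
def TypeE (U : Ultrafilter ℕ) (G : SimpleGraph V) : Prop :=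
  ∃ a : ℕ → V, NC U a ∧ Lnk U G a 4 ∧ (Fwd U G a 2 ∨ Fwd U G a 3)

theorem Lnk.four_mul {a : ℕ → V} (ha : NC U a) (h : Lnk U G a 4) (x : ℕ) :
    Lnk U G a (4 * (x + 1)) := by
  induction x with
  | zero => exact h
  | succ x ih =>
    have := ih.add ha h
    have e : 4 * (x + 1 + 1) = 4 * (x + 1) + 4 := by ring
    rw [e]
    exact this

theorem TypeE.cycles (h : TypeE U G) : ∃ a, NC U a ∧ ∀ m, 4 ≤ m →
    CG U G a (2 * m) := by
  obtain ⟨a, ha, h4, hf⟩ := h
  refine ⟨a, ha, ?_⟩
  intro m hm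
  have h6 : Fwd U G a 6 := by
    rcases hf with hf | hf
    · exact (hf.add hf).add hf
    · exact hf.add hf
  rcases Nat.even_or_odd' m with ⟨x, hx | hx⟩
  · obtain ⟨y, rfl⟩ : ∃ y, x = y + 2 := ⟨x - 2, by omega⟩
    have h1 := CG.of ha (Lnk.fwd ha (h4.four_mul ha y)) h4 (by omega) (by omega)
    have e : 2 * m = 4 * (y + 1) + 4 := by omega
    rw [e]
    exact h1
  · obtain ⟨y, rfl⟩ : ∃ y, x = y + 2 := ⟨x - 2, by omega⟩
    have h1 := CG.of ha h6 (h4.four_mul ha y) (by omega) (by omega)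
    have e : 2 * m = 6 + 4 * (y + 1) := by omega
    rw [e]
    exact h1

theorem typeE_of_two {a : ℕ → V} (ha : NC U a) (h : Lnk U G a 2) : TypeE U G :=
  ⟨a, ha, Lnk.add ha h h, Or.inl (Lnk.fwd ha h)⟩

/-- two vertices with generic common neighbours -/
theorem lk2_of {f : ℕ → V} (hf : NC U f) {u w : V} (huw : u ≠ w)
    (h : ∀ᶠ k in (U : Filter ℕ), G.Adj u (f k) ∧ G.Adj w (f k)) : Lk G 2 u w := by
  intro F h1 h2
  obtain ⟨k, ⟨h3, h4⟩, h5⟩ := (h.and (hf.fin F)).exists
  have h6 := Pth.of_list (G := G) [f k, w] u (by simp [huw, h3.ne, h4.ne.symm])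
    (by simp [h3, h4.symm])
  refine ⟨_, h6, ?_⟩
  rw [Finset.disjoint_left]
  intro y hy
  simp only [List.mem_toFinset, List.mem_cons, List.not_mem_nil, or_false] at hy
  rcases hy with rfl | rfl | rfl
  · exact h1
  · exact h5
  · exact h2

/-- neighbours of distinct members of a sequence are distinct, or there are many common
neighbours -/
theorem KT {a : ℕ → V} {f : ℕ → ℕ → V} (ha : NC U a)
    (hadj : ∀ᶠ i in (U : Filter ℕ), ∀ᶠ k in (U : Filter ℕ), G.Adj (a i) (f i k))
    (hf : ∀ᶠ i in (U : Filter ℕ), NC U (f i)) :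
    (∀ᶠ i in (U : Filter ℕ), ∀ᶠ j in (U : Filter ℕ), ∀ᶠ k in (U : Filter ℕ), f i k ≠ f j k) ∨
      TypeE U G := by
  by_cases h : ∀ᶠ i in (U : Filter ℕ), ∀ᶠ j in (U : Filter ℕ), ∀ᶠ k in (U : Filter ℕ),
      f i k ≠ f j k
  · exact Or.inl h
  · right
    refine typeE_of_two ha ?_
    filter_upwards [flip3 h, hadj, hf] with i hi hi2 hi3
    filter_upwards [hi, hadj, ha (a i)] with j hj hj2 hj3
    refine lk2_of hi3 (Ne.symm hj3) ?_
    filter_upwards [hj, hi2, hj2] with k hk hk2 hk3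
    rw [not_not] at hk
    rw [← hk] at hk3
    exact ⟨hk2, hk3⟩

/-- every two vertices are at distance at most three -/
def DiamThree (G : SimpleGraph V) : Prop := ∀ u v, u = v ∨ G.Adj u v ∨ (∃ x, G.Adj u x ∧ G.Adj x v) ∨
  ∃ x y, G.Adj u x ∧ G.Adj x y ∧ G.Adj y v

/-- the sequence `p` is generically at distance three with private connectors -/
structure TT (U : Ultrafilter ℕ) (G : SimpleGraph V) (p : ℕ → V) (X Y : ℕ → ℕ → V) : Prop where
  adj : ∀ᶠ i in (U : Filter ℕ), ∀ᶠ k in (U : Filter ℕ),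
    G.Adj (p i) (X i k) ∧ G.Adj (X i k) (Y i k) ∧ G.Adj (Y i k) (p k)
  ncX : ∀ᶠ i in (U : Filter ℕ), NC U (X i)
  ncY : ∀ᶠ i in (U : Filter ℕ), NC U (Y i)
  no1 : ∀ᶠ i in (U : Filter ℕ), ∀ᶠ k in (U : Filter ℕ), ¬ G.Adj (p i) (p k)
  no2 : ∀ᶠ i in (U : Filter ℕ), ∀ᶠ k in (U : Filter ℕ), ∀ z, G.Adj (p i) z → ¬ G.Adj z (p k)
  dX : ∀ᶠ i in (U : Filter ℕ), ∀ᶠ j in (U : Filter ℕ), ∀ᶠ k in (U : Filter ℕ), X i k ≠ X j k
  dY : ∀ᶠ i in (U : Filter ℕ), ∀ᶠ j in (U : Filter ℕ), ∀ᶠ k in (U : Filter ℕ), Y i k ≠ Y j k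

/-- private connectors of length two -/
theorem typeE_of_mid {a b : ℕ → V} {f : ℕ → ℕ → V} (ha : NC U a) (hb : NC U b)
    (hadj : ∀ᶠ i in (U : Filter ℕ), ∀ᶠ k in (U : Filter ℕ),
      G.Adj (a i) (f i k) ∧ G.Adj (f i k) (b k))
    (hf : ∀ᶠ i in (U : Filter ℕ), NC U (f i))
    (hfwd : Lnk U G a 4 → Fwd U G a 2 ∨ Fwd U G a 3) : TypeE U G := by
  rcases KT ha (by
    filter_upwards [hadj] with i hi
    filter_upwards [hi] with k hk
    exact hk.1) hf with h | h
  · have h4 : Lnk U G a 4 := by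
      filter_upwards [h, hadj, hf] with i hi hi2 hi3
      filter_upwards [hi, hadj, hf, ha (a i)] with j hj hj2 hj3 hji
      intro F h1 h2
      obtain ⟨k, hk, ⟨h5, h6⟩, ⟨h7, h8⟩, h9, h10, h11⟩ := (hj.and (hi2.and (hj2.and
        ((hi3.fin (F ∪ {a i, a j})).and ((hj3.fin (F ∪ {a i, a j})).and
        (hb.fin (F ∪ {a i, a j}))))))).exists
      simp only [Finset.mem_union, Finset.mem_insert, Finset.mem_singleton, not_or] at h9 h10 h11
      have h12 := Pth.of_list (G := G) [f i k, b k, f j k, a j] (a i) (by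
        simp [h5.ne, Ne.symm h11.2.1, Ne.symm h10.2.1, Ne.symm hji, h6.ne, hk, h9.2.2,
          h8.ne.symm, h11.2.2, h7.ne.symm]) (by simp [h5, h6, h8.symm, h7.symm])
      refine ⟨_, h12, ?_⟩
      rw [Finset.disjoint_left]
      intro y hy
      simp only [List.mem_toFinset, List.mem_cons, List.not_mem_nil, or_false] at hy
      rcases hy with rfl | rfl | rfl | rfl | rfl
      · exact h1
      · exact h9.1
      · exact h11.1
      · exact h10.1
      · exact h2
    exact ⟨a, ha, h4, hfwd h4⟩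
  · exact h

theorem classify (hD : DiamThree G) {p : ℕ → V} (hp : NC U p)
    (hub : ∀ v, ¬ ∀ᶠ i in (U : Filter ℕ), G.Adj v (p i)) :
    TypeE U G ∨ ∃ X Y, TT U G p X Y := by
  have : Nonempty V := ⟨p 0⟩
  have hub' : ∀ v, ∀ᶠ i in (U : Filter ℕ), ¬ G.Adj v (p i) := fun v => flip1 (hub v)
  by_cases h2 : ∀ᶠ i in (U : Filter ℕ), ∀ᶠ k in (U : Filter ℕ), ∃ z, G.Adj (p i) z ∧ G.Adj z (p k)
  · -- distance two
    left
    let f : ℕ → ℕ → V := fun i k => Classical.epsilon (fun z => G.Adj (p i) z ∧ G.Adj z (p k))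
    have hf : ∀ᶠ i in (U : Filter ℕ), ∀ᶠ k in (U : Filter ℕ),
        G.Adj (p i) (f i k) ∧ G.Adj (f i k) (p k) := by
      filter_upwards [h2] with i hi
      filter_upwards [hi] with k hk
      exact Classical.epsilon_spec hk
    have hnc : ∀ᶠ i in (U : Filter ℕ), NC U (f i) := by
      filter_upwards [hf] with i hi
      intro v
      by_contra hv
      refine hub v ?_
      filter_upwards [flip1 hv, hi] with k hk hk2
      rw [not_not] at hk
      rw [← hk]
      exact hk2.2
    refine typeE_of_mid hp hp hf hnc ?_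
    intro _
    left
    filter_upwards [hf, hnc] with i hi hi2
    intro F hF
    filter_upwards [hi, hi2.fin F, hp.fin (F ∪ {p i})] with k hk hk2 hk3
    simp only [Finset.mem_union, Finset.mem_singleton, not_or] at hk3
    have h12 := Pth.of_list (G := G) [f i k, p k] (p i) (by
      simp [hk.1.ne, Ne.symm hk3.2, hk.2.ne]) (by simp [hk.1, hk.2])
    refine ⟨_, h12, ?_⟩
    rw [Finset.disjoint_left]
    intro y hy
    simp only [List.mem_toFinset, List.mem_cons, List.not_mem_nil, or_false] at hy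
    rcases hy with rfl | rfl | rfl
    · exact hF
    · exact hk2
    · exact hk3.1
  · -- distance three
    have no2 := flip2 h2
    have no1 : ∀ᶠ i in (U : Filter ℕ), ∀ᶠ k in (U : Filter ℕ), ¬ G.Adj (p i) (p k) :=
      Filter.Eventually.of_forall (fun i => hub' (p i))
    let R : ℕ → ℕ → V × V → Prop := fun i k xy =>
      G.Adj (p i) xy.1 ∧ G.Adj xy.1 xy.2 ∧ G.Adj xy.2 (p k)
    let X : ℕ → ℕ → V := fun i k => (Classical.epsilon (R i k)).1
    let Y : ℕ → ℕ → V := fun i k => (Classical.epsilon (R i k)).2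
    have hadj : ∀ᶠ i in (U : Filter ℕ), ∀ᶠ k in (U : Filter ℕ),
        G.Adj (p i) (X i k) ∧ G.Adj (X i k) (Y i k) ∧ G.Adj (Y i k) (p k) := by
      filter_upwards [no2] with i hi
      filter_upwards [hi, hub' (p i), hp (p i)] with k hk hk2 hk3
      have hex : ∃ xy, R i k xy := by
        rcases hD (p i) (p k) with h | h | h | ⟨x, y, h⟩
        · exact absurd h.symm hk3
        · exact absurd h hk2
        · exact absurd h hk
        · exact ⟨(x, y), h⟩
      exact Classical.epsilon_spec hex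
    have hncY : ∀ᶠ i in (U : Filter ℕ), NC U (Y i) := by
      filter_upwards [hadj] with i hi
      intro v
      by_contra hv
      refine hub v ?_
      filter_upwards [flip1 hv, hi] with k hk hk2
      rw [not_not] at hk
      rw [← hk]
      exact hk2.2.2
    by_cases hX : ∀ᶠ i in (U : Filter ℕ), NC U (X i)
    · rcases KT hp (by
        filter_upwards [hadj] with i hi
        filter_upwards [hi] with k hk
        exact hk.1) hX with hdX | h
      swap
      · exact Or.inl h
      have hF3 : Fwd U G p 3 := by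
        filter_upwards [hadj, hX, hncY, no1] with i hi hiX hiY hi1
        intro F hF
        filter_upwards [hi, hiX.fin (F ∪ {p i}), hiY.fin (F ∪ {p i}), hp.fin (F ∪ {p i}), hi1]
          with k hk hkX hkY hkp hk1
        simp only [Finset.mem_union, Finset.mem_singleton, not_or] at hkX hkY hkp
        have hXp : X i k ≠ p k := by
          intro h
          rw [← h] at hk1
          exact hk1 hk.1
        have h12 := Pth.of_list (G := G) [X i k, Y i k, p k] (p i) (by
          simp [hk.1.ne, Ne.symm hkY.2, Ne.symm hkp.2, hk.2.1.ne, hXp, hk.2.2.ne])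
          (by simp [hk.1, hk.2.1, hk.2.2])
        refine ⟨_, h12, ?_⟩
        rw [Finset.disjoint_left]
        intro y hy
        simp only [List.mem_toFinset, List.mem_cons, List.not_mem_nil, or_false] at hy
        rcases hy with rfl | rfl | rfl | rfl
        · exact hF
        · exact hkX.1
        · exact hkY.1
        · exact hkp.1
      by_cases hdY : ∀ᶠ i in (U : Filter ℕ), ∀ᶠ j in (U : Filter ℕ), ∀ᶠ k in (U : Filter ℕ),
          Y i k ≠ Y j k
      · right
        refine ⟨X, Y, hadj, hX, hncY, no1, ?_, hdX, hdY⟩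
        filter_upwards [no2] with i hi
        filter_upwards [hi] with k hk
        intro z hz hz2
        exact hk ⟨z, hz, hz2⟩
      · -- the second connector vertex depends on the end only
        left
        have h4 : Lnk U G p 4 := by
          filter_upwards [hdX, flip3 hdY, hadj, hX, hncY] with i hi hiY hi2 hi3 hi4
          filter_upwards [hi, hiY, hadj, hX, hp (p i)] with j hj hjY hj2 hj3 hji
          intro F h1 h2
          obtain ⟨k, hk, hkY, h5, h6, h7, h8, h9⟩ := (hj.and (hjY.and (hi2.and (hj2.and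
            ((hi3.fin (F ∪ {p i, p j})).and ((hj3.fin (F ∪ {p i, p j})).and
            (hi4.fin (F ∪ {p i, p j})))))))).exists
          rw [not_not] at hkY
          rw [← hkY] at h6
          simp only [Finset.mem_union, Finset.mem_insert, Finset.mem_singleton, not_or] at h7 h8 h9
          have h12 := Pth.of_list (G := G) [X i k, Y i k, X j k, p j] (p i) (by
            simp [h5.1.ne, Ne.symm h9.2.1, Ne.symm h8.2.1, Ne.symm hji, h5.2.1.ne, hk, h7.2.2,
              h6.2.1.ne.symm, h9.2.2, h6.1.ne.symm])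
            (by simp [h5.1, h5.2.1, h6.2.1.symm, h6.1.symm])
          refine ⟨_, h12, ?_⟩
          rw [Finset.disjoint_left]
          intro y hy
          simp only [List.mem_toFinset, List.mem_cons, List.not_mem_nil, or_false] at hy
          rcases hy with rfl | rfl | rfl | rfl | rfl
          · exact h1
          · exact h7.1
          · exact h9.1
          · exact h8.1
          · exact h2
        exact ⟨p, hp, h4, Or.inr hF3⟩
    · -- the first connector vertex is constant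
      left
      have hX' := flip1 hX
      let a : ℕ → V := fun i => Classical.epsilon (fun v => ∀ᶠ k in (U : Filter ℕ), X i k = v)
      have ha : ∀ᶠ i in (U : Filter ℕ), ∀ᶠ k in (U : Filter ℕ), X i k = a i := by
        filter_upwards [hX'] with i hi
        rcases nc_or (U := U) (X i) with h | h
        · exact absurd h hi
        · exact Classical.epsilon_spec h
      have hadj2 : ∀ᶠ i in (U : Filter ℕ), ∀ᶠ k in (U : Filter ℕ),
          G.Adj (a i) (Y i k) ∧ G.Adj (Y i k) (p k) := by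
        filter_upwards [hadj, ha] with i hi hi2
        filter_upwards [hi, hi2] with k hk hk2
        rw [← hk2]
        exact hk.2
      have hpa : ∀ᶠ i in (U : Filter ℕ), G.Adj (p i) (a i) := by
        filter_upwards [hadj, ha] with i hi hi2
        obtain ⟨k, hk, hk2⟩ := (hi.and hi2).exists
        rw [← hk2]
        exact hk.1
      have hnca : NC U a := by
        intro v
        by_contra hv
        refine hub v ?_
        filter_upwards [flip1 hv, hpa] with k hk hk2
        rw [not_not] at hk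
        rw [← hk]
        exact hk2.symm
      rcases KT hnca (by
        filter_upwards [hadj2] with i hi
        filter_upwards [hi] with k hk
        exact hk.1) hncY with hdY | h
      swap
      · exact h
      refine typeE_of_mid hnca hp hadj2 hncY ?_
      intro _
      right
      have hne : ∀ᶠ i in (U : Filter ℕ), ∀ᶠ l in (U : Filter ℕ), a l ≠ Y i l := by
        by_contra hcon
        have h1 := flip2 hcon
        obtain ⟨i, hi, hi2⟩ := (h1.and hdY).exists
        obtain ⟨j, hj, hj2⟩ := (h1.and hi2).exists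
        obtain ⟨k, hk, hk1, hk2⟩ := (hi.and (hj.and hj2)).exists
        rw [not_not] at hk hk1
        exact hk2 (hk.symm.trans hk1)
      filter_upwards [hadj2, hncY, hne] with i hi hi2 hi3
      intro F hF
      filter_upwards [hi, hi2.fin (F ∪ {a i}), hi3, hnca.fin (F ∪ {a i}), hp.fin (F ∪ {a i}),
        hpa] with k hk hk2 hk3 hk4 hk5 hk6
      simp only [Finset.mem_union, Finset.mem_singleton, not_or] at hk2 hk4 hk5
      have h12 := Pth.of_list (G := G) [Y i k, p k, a k] (a i) (by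
        simp [hk.1.ne, Ne.symm hk5.2, Ne.symm hk4.2, hk.2.ne, Ne.symm hk3, hk6.ne])
        (by simp [hk.1, hk.2, hk6])
      refine ⟨_, h12, ?_⟩
      rw [Finset.disjoint_left]
      intro y hy
      simp only [List.mem_toFinset, List.mem_cons, List.not_mem_nil, or_false] at hy
      rcases hy with rfl | rfl | rfl | rfl
      · exact hF
      · exact hk2.1
      · exact hk5.1
      · exact hk4.1

theorem TT.fwd {p : ℕ → V} {X Y : ℕ → ℕ → V} (hp : NC U p) (h : TT U G p X Y) :
    Fwd U G p 3 := by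
  filter_upwards [h.adj, h.ncX, h.ncY, h.no1] with i hi hiX hiY hi1
  intro F hF
  filter_upwards [hi, hiX.fin (F ∪ {p i}), hiY.fin (F ∪ {p i}), hp.fin (F ∪ {p i}), hi1]
    with k hk hkX hkY hkp hk1
  simp only [Finset.mem_union, Finset.mem_singleton, not_or] at hkX hkY hkp
  have hXp : X i k ≠ p k := by
    intro h
    rw [← h] at hk1
    exact hk1 hk.1
  have h12 := Pth.of_list (G := G) [X i k, Y i k, p k] (p i) (by
    simp [hk.1.ne, Ne.symm hkY.2, Ne.symm hkp.2, hk.2.1.ne, hXp, hk.2.2.ne])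
    (by simp [hk.1, hk.2.1, hk.2.2])
  refine ⟨_, h12, ?_⟩
  rw [Finset.disjoint_left]
  intro y hy
  simp only [List.mem_toFinset, List.mem_cons, List.not_mem_nil, or_false] at hy
  rcases hy with rfl | rfl | rfl | rfl
  · exact hF
  · exact hkX.1
  · exact hkY.1
  · exact hkp.1

theorem TT.lnk {p : ℕ → V} {X Y : ℕ → ℕ → V} (hp : NC U p) (h : TT U G p X Y) :
    Lnk U G p 6 := by
  filter_upwards [h.adj, h.ncX, h.ncY, h.no1, h.no2, h.dX, h.dY] with i hi hiX hiY hi1 hi2 hidX
    hidY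
  filter_upwards [h.adj, h.ncX, h.ncY, h.no1, h.no2, hidX, hidY, hp (p i)] with j hj hjX hjY hj1
    hj2 hjdX hjdY hji
  intro F h1 h2
  obtain ⟨k, hk, hk', hX, hX', hY, hY', hkp, hn, hn', h22, h22', hdX, hdY⟩ :=
    (hi.and (hj.and ((hiX.fin (F ∪ {p i, p j})).and ((hjX.fin (F ∪ {p i, p j})).and
      ((hiY.fin (F ∪ {p i, p j})).and ((hjY.fin (F ∪ {p i, p j})).and
      ((hp.fin (F ∪ {p i, p j})).and (hi1.and (hj1.and (hi2.and (hj2.and
      (hjdX.and hjdY)))))))))))).exists
  simp only [Finset.mem_union, Finset.mem_insert, Finset.mem_singleton, not_or] at hX hX' hY hY' hkp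
  have e1 : X i k ≠ p k := by
    intro h
    rw [← h] at hn
    exact hn hk.1
  have e2 : X j k ≠ p k := by
    intro h
    rw [← h] at hn'
    exact hn' hk'.1
  have e3 : X i k ≠ Y j k := by
    intro h
    exact h22 _ hk.1 (h ▸ hk'.2.2)
  have e4 : X j k ≠ Y i k := by
    intro h
    exact h22' _ hk'.1 (h ▸ hk.2.2)
  have h12 := Pth.of_list (G := G) [X i k, Y i k, p k, Y j k, X j k, p j] (p i) (by
    simp [hk.1.ne, Ne.symm hY.2.1, Ne.symm hkp.2.1, Ne.symm hY'.2.1, Ne.symm hX'.2.1,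
      Ne.symm hji, hk.2.1.ne, e1, e3, hdX, hX.2.2, hk.2.2.ne, hdY, Ne.symm e4, hY.2.2,
      hk'.2.2.ne.symm, Ne.symm e2, hkp.2.2, hk'.2.1.ne.symm, hY'.2.2, hk'.1.ne.symm])
    (by simp [hk.1, hk.2.1, hk.2.2, hk'.2.2.symm, hk'.2.1.symm, hk'.1.symm])
  refine ⟨_, h12, ?_⟩
  rw [Finset.disjoint_left]
  intro y hy
  simp only [List.mem_toFinset, List.mem_cons, List.not_mem_nil, or_false] at hy
  rcases hy with rfl | rfl | rfl | rfl | rfl | rfl | rfl
  · exact h1
  · exact hX.1
  · exact hY.1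
  · exact hkp.1
  · exact hY'.1
  · exact hX'.1
  · exact h2

end Q109.D3
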