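import Pool.Agent.Q109.D3.Cross

/-!
# Hubs of a ray
-/

namespace Q109.D3

open Classical Filter

variable {V : Type} {G : SimpleGraph V} {U : Ultrafilter ℕ}

/-- `x` is adjacent to generically many vertices `P (i + c)` -/
def Hub (U : Ultrafilter ℕ) (G : SimpleGraph V) (P : ℕ → V) (c : ℕ) (x : V) : Prop :=
  ∀ᶠ i in (U : Filter ℕ), G.Adj x (P (i + c))

/-- a segment of the ray avoiding a finite set -/
theorem seg_avoid (hU : ∀ n, ∀ᶠ i in (U : Filter ℕ), i ≠ n) {P : ℕ → V}
    (hP : Function.Injective P) (c d : ℕ) (F : Finset V) :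
    ∀ᶠ i in (U : Filter ℕ), ∀ t ∈ Finset.range (d + 1), P (i + c + t) ∉ F := by
  rw [Filter.eventually_all_finset]
  intro t _
  have := (nc_of_inj hU (shift_inj hP (c + t))).fin F
  filter_upwards [this] with i hi
  rw [Nat.add_assoc]
  exact hi

theorem hub_path (hU : ∀ n, ∀ᶠ i in (U : Filter ℕ), i ≠ n) {P : ℕ → V}
    (hP : Function.Injective P) (hray : ∀ k, G.Adj (P k) (P (k + 1))) {c d : ℕ} {x : V}
    (hx : Hub U G P c x) (F : Finset V) (hxF : x ∉ F) :
    ∀ᶠ i in (U : Filter ℕ), ∃ T, Pth G x (P (i + c + d)) (d + 1) T ∧ Disjoint T F ∧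
      T ⊆ insert x ((Finset.range (d + 1)).image (fun t => P (i + c + t))) := by
  filter_upwards [hx, seg_avoid hU hP c d (insert x F)] with i hi hi2
  have hB := Pth.of_fn (G := G) (fun t => P (i + c + t)) d (by
    intro t t' _ _ h
    have := hP h
    omega) (fun t _ => hray (i + c + t))
  have hB' : Pth G (P (i + c)) (P (i + c + d)) d
    ((Finset.range (d + 1)).image (fun t => P (i + c + t))) := hB
  have hxn : x ∉ (Finset.range (d + 1)).image (fun t => P (i + c + t)) := by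
    intro h
    rw [Finset.mem_image] at h
    obtain ⟨t, ht, h⟩ := h
    exact hi2 t ht (by rw [h]; exact Finset.mem_insert_self _ _)
  refine ⟨_, Pth.cons x _ _ _ _ hxn hi hB', ?_, subset_rfl⟩
  rw [Finset.disjoint_left]
  intro y hy hyF
  rcases Finset.mem_insert.mp hy with rfl | hy
  · exact hxF hyF
  · rw [Finset.mem_image] at hy
    obtain ⟨t, ht, rfl⟩ := hy
    exact hi2 t ht (Finset.mem_insert_of_mem hyF)

theorem hub_lk (hU : ∀ n, ∀ᶠ i in (U : Filter ℕ), i ≠ n) {P : ℕ → V}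
    (hP : Function.Injective P) (hray : ∀ k, G.Adj (P k) (P (k + 1))) {c d : ℕ} {x y : V}
    (hx : Hub U G P c x) (hy : Hub U G P (c + d) y) (hxy : x ≠ y) : Lk G (d + 2) x y := by
  intro F hxF hyF
  obtain ⟨i, ⟨T, hT, hd, _⟩, hi⟩ := ((hub_path hU hP hray (d := d) hx (insert y F) (by
    rw [Finset.mem_insert, not_or]
    exact ⟨hxy, hxF⟩)).and hy).exists
  rw [Finset.disjoint_left] at hd
  have hi' : G.Adj (P (i + c + d)) y := by
    rw [Nat.add_assoc]
    exact hi.symm
  refine ⟨insert y T, hT.snoc y (fun h => hd h (Finset.mem_insert_self _ _)) hi', ?_⟩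
  rw [Finset.disjoint_left]
  intro z hz hzF
  rcases Finset.mem_insert.mp hz with rfl | hz
  · exact hyF hzF
  · exact hd hz (Finset.mem_insert_of_mem hzF)

theorem hub_cyc (hU : ∀ n, ∀ᶠ i in (U : Filter ℕ), i ≠ n) {P : ℕ → V}
    (hP : Function.Injective P) (hray : ∀ k, G.Adj (P k) (P (k + 1))) {c d : ℕ} {x : V}
    (hx : Hub U G P c x) (hy : Hub U G P (c + d) x) (hd : 1 ≤ d) (F : Finset V) (hxF : x ∉ F) :
    ∃ T, CycAt G x (d + 2) T ∧ Disjoint T F := by
  obtain ⟨i, ⟨T, hT, hdj, _⟩, hi⟩ := ((hub_path hU hP hray (d := d) hx F hxF).and hy).exists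
  refine ⟨T, ⟨by omega, P (i + c + d), ?_, ?_⟩, hdj⟩
  · have e : d + 2 - 1 = d + 1 := by omega
    rw [e]
    exact hT
  · rw [Nat.add_assoc]
    exact hi.symm

/-- two links give a cycle -/
theorem cyc_of_lk {u w : V} {n m : ℕ} (_huw : u ≠ w) (hn : Lk G n u w) (hm : Lk G m u w)
    (h2 : 2 ≤ m) (h3 : 3 ≤ n + m) (F : Finset V) (huF : u ∉ F) (hwF : w ∉ F) :
    ∃ T, CycAt G u (n + m) T ∧ Disjoint T F := by
  obtain ⟨T₁, hT₁, hd₁⟩ := hn F huF hwF
  rw [Finset.disjoint_left] at hd₁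
  obtain ⟨T₂, hT₂, hd₂⟩ := hm (F ∪ (T₁.erase u).erase w) (by simp [huF]) (by simp [hwF])
  rw [Finset.disjoint_left] at hd₂
  obtain ⟨T, hT, hsub⟩ := CycAt.of_two hT₁ hT₂ (by
    intro y hy hy'
    by_contra hne
    push Not at hne
    exact hd₂ hy' (Finset.mem_union_right _
      (Finset.mem_erase.mpr ⟨hne.2, Finset.mem_erase.mpr ⟨hne.1, hy⟩⟩))) h2 h3
  refine ⟨T, hT, ?_⟩
  rw [Finset.disjoint_left]
  intro y hy hyF
  rcases Finset.mem_union.mp (hsub hy) with h | h
  · exact hd₁ h hyF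
  · exact hd₂ h (Finset.mem_union_left _ hyF)

/-- if all offsets have hubs there are all even cycles of length at least eight -/
theorem hub_cycles (hU : ∀ n, ∀ᶠ i in (U : Filter ℕ), i ≠ n) {P : ℕ → V}
    (hP : Function.Injective P) (hray : ∀ k, G.Adj (P k) (P (k + 1)))
    (hub : ∀ c, ∃ x, Hub U G P c x) (r : ℕ) (hr : 4 ≤ r) : ∃ v T, CycAt G v (2 * r) T := by
  by_contra hno
  push Not at hno
  have key : ∀ c x y, Hub U G P c x → Hub U G P (c + (r - 2)) y → x = y := by
    intro c x y hx hy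
    by_contra hne
    have h1 := hub_lk hU hP hray hx hy hne
    obtain ⟨T, hT, _⟩ := cyc_of_lk hne h1 h1 (by omega) (by omega) ∅ (by simp) (by simp)
    have e : r - 2 + 2 + (r - 2 + 2) = 2 * r := by omega
    rw [e] at hT
    exact hno _ _ hT
  obtain ⟨x, hx⟩ := hub 0
  obtain ⟨x1, hx1⟩ := hub (0 + (r - 2))
  obtain ⟨x2, hx2⟩ := hub (0 + (r - 2) + (r - 2))
  obtain ⟨w, hw⟩ := hub 2
  obtain ⟨w1, hw1⟩ := hub (2 + (r - 2))
  obtain ⟨w2, hw2⟩ := hub (2 + (r - 2) + (r - 2))
  have e1 := key _ _ _ hx hx1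
  have e2 := key _ _ _ hx1 hx2
  have e3 := key _ _ _ hw hw1
  have e4 := key _ _ _ hw1 hw2
  subst e1
  subst e2
  subst e3
  subst e4
  by_cases hxw : x = w
  · subst hxw
    have e : 2 + (r - 2) + (r - 2) = 0 + (2 * r - 2) := by omega
    rw [e] at hw2
    obtain ⟨T, hT, _⟩ := hub_cyc hU hP hray hx hw2 (by omega) ∅ (by simp)
    have e : 2 * r - 2 + 2 = 2 * r := by omega
    rw [e] at hT
    exact hno _ _ hT
  · have h1 : Lk G (2 + 2) x w := hub_lk hU hP hray hx (by rw [Nat.zero_add]; exact hw) hxw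
    have e : 0 + (r - 2) + (r - 2) = 2 + (2 * r - 6) := by omega
    rw [e] at hx2
    have h2 := (hub_lk hU hP hray hw hx2 (Ne.symm hxw)).symm
    obtain ⟨T, hT, _⟩ := cyc_of_lk hxw h1 h2 (by omega) (by omega) ∅ (by simp) (by simp)
    have e : 2 + 2 + (2 * r - 6 + 2) = 2 * r := by omega
    rw [e] at hT
    exact hno _ _ hT

/-- **Infinite form.** -/
theorem ray_cycles (hU : ∀ n, ∀ᶠ i in (U : Filter ℕ), i ≠ n) (hD : DiamThree G) {P : ℕ → V}
    (hP : Function.Injective P) (hray : ∀ k, G.Adj (P k) (P (k + 1))) (r : ℕ) (hr : 5 ≤ r) :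
    ∃ v T, CycAt G v (2 * r) T := by
  by_cases hub : ∀ c, ∃ x, Hub U G P c x
  · exact hub_cycles hU hP hray hub r (by omega)
  · push Not at hub
    obtain ⟨c, hc⟩ := hub
    exact nohub_cycles hU hD (shift_inj hP c) (fun k => by
      have := hray (k + c)
      have e : k + c + 1 = k + 1 + c := by omega
      rwa [e] at this) hc r hr

/-! ### two cycles of lengths twelve and eighteen sharing one vertex -/

/-- two cycles of lengths 12 and 18 sharing exactly one vertex -/
def TwoCyc (G : SimpleGraph V) : Prop :=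
  ∃ v T₁ T₂, CycAt G v 12 T₁ ∧ CycAt G v 18 T₂ ∧ ∀ y ∈ T₁, y ∈ T₂ → y = v

/-- positions of colours `x` and `y` at distance `d` -/
def Gap (c : ℕ → V) (x y : V) (d : ℕ) : Prop :=
  ∃ i, (c i = x ∧ c (i + d) = y) ∨ (c i = y ∧ c (i + d) = x)

theorem Gap.symm {c : ℕ → V} {x y : V} {d : ℕ} (h : Gap c x y d) : Gap c y x d := by
  obtain ⟨i, h | h⟩ := h
  · exact ⟨i, Or.inr h⟩
  · exact ⟨i, Or.inl h⟩

/-- configurations giving cycles of length `D + 2` through the hub `x` -/
def Cfg (c : ℕ → V) (D : ℕ) (x : V) (S : Finset V) : Prop :=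
  (S = ∅ ∧ ∃ i, c i = x ∧ c (i + D) = x) ∨
  ∃ y, y ≠ x ∧ S = {y} ∧ ∃ d d', d + d' + 2 = D ∧ Gap c x y d ∧ Gap c x y d'

theorem two_col {x y a b d : V} (ha : a = x ∨ a = y) (hb : b = x ∨ b = y) (hd : d = x ∨ d = y)
    (h1 : a ≠ b) (h2 : d ≠ b) : a = d := by
  rcases ha with ha | ha
  · rcases hb with hb | hb
    · exact absurd (ha.trans hb.symm) h1
    · rcases hd with hd | hd
      · exact ha.trans hd.symm
      · exact absurd (hd.trans hb.symm) h2
  · rcases hb with hb | hb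
    · rcases hd with hd | hd
      · exact absurd (hd.trans hb.symm) h2
      · exact ha.trans hd.symm
    · exact absurd (ha.trans hb.symm) h1

theorem comb (c : ℕ → V) : ∃ x S₁ S₂, Cfg c 10 x S₁ ∧ Cfg c 16 x S₂ ∧ Disjoint S₁ S₂ := by
  by_contra hno
  push Not at hno
  have A1 : ∀ x i, c i = x → c (i + 10) = x → Cfg c 10 x ∅ := fun x i h1 h2 =>
    Or.inl ⟨rfl, i, h1, h2⟩
  have B1 : ∀ x i, c i = x → c (i + 16) = x → Cfg c 16 x ∅ := fun x i h1 h2 =>
    Or.inl ⟨rfl, i, h1, h2⟩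
  have A2 : ∀ x y d d', y ≠ x → d + d' = 8 → Gap c x y d → Gap c x y d' → Cfg c 10 x {y} :=
    fun x y d d' h1 h2 h3 h4 => Or.inr ⟨y, h1, rfl, d, d', by omega, h3, h4⟩
  have B2 : ∀ x y d d', y ≠ x → d + d' = 14 → Gap c x y d → Gap c x y d' → Cfg c 16 x {y} :=
    fun x y d d' h1 h2 h3 h4 => Or.inr ⟨y, h1, rfl, d, d', by omega, h3, h4⟩
  have a4 : ∀ j, c (j + 4) ≠ c j → Cfg c 10 (c j) {c (j + 4)} := fun j h =>
    A2 _ _ 4 4 h rfl ⟨j, Or.inl ⟨rfl, rfl⟩⟩ ⟨j, Or.inl ⟨rfl, rfl⟩⟩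
  have a4' : ∀ j, c (j + 4) ≠ c j → Cfg c 10 (c (j + 4)) {c j} := fun j h =>
    A2 _ _ 4 4 (Ne.symm h) rfl ⟨j, Or.inr ⟨rfl, rfl⟩⟩ ⟨j, Or.inr ⟨rfl, rfl⟩⟩
  have b7 : ∀ j, c (j + 7) ≠ c j → Cfg c 16 (c j) {c (j + 7)} := fun j h =>
    B2 _ _ 7 7 h rfl ⟨j, Or.inl ⟨rfl, rfl⟩⟩ ⟨j, Or.inl ⟨rfl, rfl⟩⟩
  have b7' : ∀ j, c (j + 7) ≠ c j → Cfg c 16 (c (j + 7)) {c j} := fun j h =>
    B2 _ _ 7 7 (Ne.symm h) rfl ⟨j, Or.inr ⟨rfl, rfl⟩⟩ ⟨j, Or.inr ⟨rfl, rfl⟩⟩
  have N4 : ∀ x y z, Cfg c 10 x {y} → Cfg c 16 x {z} → y = z := by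
    intro x y z h1 h2
    have := hno x _ _ h1 h2
    rw [Finset.disjoint_singleton] at this
    exact not_not.mp this
  -- step 1
  have s1 : ∀ x, ¬ Cfg c 10 x ∅ := by
    intro x hx
    have h7 : ∀ j, c j = x → c (j + 7) = x := by
      intro j hj
      by_contra hne
      have := b7 j (by rw [hj]; exact hne)
      rw [hj] at this
      exact hno x _ _ hx this (by simp)
    have h7' : ∀ j, c (j + 7) = x → c j = x := by
      intro j hj
      by_contra hne
      have := b7' j (by rw [hj]; exact Ne.symm hne)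
      rw [hj] at this
      exact hno x _ _ hx this (by simp)
    have hstep : ∀ m, c (m + 7) = x → c (m + 8) = x := by
      intro m hm
      by_contra hne
      have h0 := h7' m hm
      have h14 := h7 (m + 7) hm
      refine hno x _ _ hx (B2 x (c (m + 8)) 8 6 hne rfl ⟨m, Or.inl ⟨h0, rfl⟩⟩
        ⟨m + 8, Or.inr ⟨rfl, ?_⟩⟩) (by simp)
      exact h14
    rcases hx with ⟨-, i, hi, hi'⟩ | ⟨y, -, hy, -⟩
    · have hall : ∀ n, c (i + 7 + n) = x := by
        intro n
        induction n with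
        | zero => exact h7 i hi
        | succ n ih =>
          have := hstep (i + n) (by
            have e : i + n + 7 = i + 7 + n := by omega
            rw [e]
            exact ih)
          have e : i + 7 + (n + 1) = i + n + 8 := by omega
          rw [e]
          exact this
      exact hno x _ _ (A1 x i hi hi') (B1 x (i + 7) (hall 0) (hall 16)) (by simp)
    · simp at hy
  -- step 2
  have s2 : ∀ x, ¬ Cfg c 16 x ∅ := by
    intro x hx
    have h4 : ∀ j, c j = x → c (j + 4) = x := by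
      intro j hj
      by_contra hne
      have := a4 j (by rw [hj]; exact hne)
      rw [hj] at this
      exact hno x _ _ this hx (by simp)
    have h4' : ∀ j, c (j + 4) = x → c j = x := by
      intro j hj
      by_contra hne
      have := a4' j (by rw [hj]; exact Ne.symm hne)
      rw [hj] at this
      exact hno x _ _ this hx (by simp)
    have hstep : ∀ m, c (m + 4) = x → c (m + 5) = x := by
      intro m hm
      by_contra hne
      have h0 := h4' m hm
      have h8 := h4 (m + 4) hm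
      refine hno x _ _ (A2 x (c (m + 5)) 5 3 hne rfl ⟨m, Or.inl ⟨h0, rfl⟩⟩
        ⟨m + 5, Or.inr ⟨rfl, ?_⟩⟩) hx (by simp)
      exact h8
    rcases hx with ⟨-, i, hi, hi'⟩ | ⟨y, -, hy, -⟩
    · have hall : ∀ n, c (i + 4 + n) = x := by
        intro n
        induction n with
        | zero => exact h4 i hi
        | succ n ih =>
          have := hstep (i + n) (by
            have e : i + n + 4 = i + 4 + n := by omega
            rw [e]
            exact ih)
          have e : i + 4 + (n + 1) = i + n + 5 := by omega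
          rw [e]
          exact this
      exact hno x _ _ (A1 x (i + 4) (hall 0) (hall 10)) (B1 x i hi hi') (by simp)
    · simp at hy
  have n10 : ∀ j, c (j + 10) ≠ c j := fun j h => s1 _ (A1 (c j) j rfl h)
  have n16 : ∀ j, c (j + 16) ≠ c j := fun j h => s2 _ (B1 (c j) j rfl h)
  -- step 3
  obtain ⟨j0, hj0⟩ : ∃ j, c (j + 4) ≠ c j := by
    by_contra hcon
    push Not at hcon
    apply n16 0
    have h1 := hcon 0
    have h2 := hcon 4
    have h3 := hcon 8
    have h4 := hcon 12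
    simp only [Nat.zero_add] at h1 h2 h3 h4 ⊢
    norm_num at h2 h3 h4
    rw [h4, h3, h2, h1]
  obtain ⟨x, hx⟩ : ∃ x, x = c j0 := ⟨_, rfl⟩
  obtain ⟨y, hy⟩ : ∃ y, y = c (j0 + 4) := ⟨_, rfl⟩
  have hxy : y ≠ x := by
    rw [hx, hy]
    exact hj0
  have Axy : Cfg c 10 x {y} := by
    rw [hx, hy]
    exact a4 j0 hj0
  have Ayx : Cfg c 10 y {x} := by
    rw [hx, hy]
    exact a4' j0 hj0
  have W7 : ∀ j, (c j = x ∨ c j = y) → (c (j + 7) = x ∨ c (j + 7) = y) := by
    rintro j (hj | hj)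
    · by_cases h : c (j + 7) = c j
      · left
        rw [h, hj]
      · right
        have := b7 j h
        rw [hj] at this
        exact (N4 _ _ _ Axy this).symm
    · by_cases h : c (j + 7) = c j
      · right
        rw [h, hj]
      · left
        have := b7 j h
        rw [hj] at this
        exact (N4 _ _ _ Ayx this).symm
  have W7' : ∀ j, (c (j + 7) = x ∨ c (j + 7) = y) → (c j = x ∨ c j = y) := by
    rintro j (hj | hj)
    · by_cases h : c (j + 7) = c j
      · left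
        rw [← h, hj]
      · right
        have := b7' j h
        rw [hj] at this
        exact (N4 _ _ _ Axy this).symm
    · by_cases h : c (j + 7) = c j
      · right
        rw [← h, hj]
      · left
        have := b7' j h
        rw [hj] at this
        exact (N4 _ _ _ Ayx this).symm
  have W4 : Cfg c 16 x {y} → Cfg c 16 y {x} → ∀ j, (c j = x ∨ c j = y) →
      (c (j + 4) = x ∨ c (j + 4) = y) := by
    rintro Bxy Byx j (hj | hj)
    · by_cases h : c (j + 4) = c j
      · left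
        rw [h, hj]
      · right
        have := a4 j h
        rw [hj] at this
        exact N4 _ _ _ this Bxy
    · by_cases h : c (j + 4) = c j
      · right
        rw [h, hj]
      · left
        have := a4 j h
        rw [hj] at this
        exact N4 _ _ _ this Byx
  have W1 : ∀ m, (c (m + 7) = x ∨ c (m + 7) = y) → (c (m + 8) = x ∨ c (m + 8) = y) := by
    intro m hm
    by_contra hW
    push Not at hW
    have h0 := W7' m hm
    have h14 := W7 (m + 7) hm
    have hB : Cfg c 16 x {y} → Cfg c 16 y {x} → False := by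
      intro Bxy Byx
      rcases W4 Bxy Byx (m + 4) (W4 Bxy Byx m h0) with h | h
      · exact hW.1 h
      · exact hW.2 h
    have hB' : c (m + 7) ≠ c m → False := by
      intro hne
      have h1 := b7 m hne
      have h2 := b7' m hne
      rcases h0 with h0 | h0
      · rcases hm with hm | hm
        · exact hne (hm.trans h0.symm)
        · rw [h0, hm] at h1 h2
          exact hB h1 h2
      · rcases hm with hm | hm
        · rw [h0, hm] at h1 h2
          exact hB h2 h1
        · exact hne (hm.trans h0.symm)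
    have hB'' : c (m + 7 + 7) ≠ c (m + 7) → False := by
      intro hne
      have h1 := b7 (m + 7) hne
      have h2 := b7' (m + 7) hne
      rcases h14 with h0 | h0
      · rcases hm with hm | hm
        · exact hne (h0.trans hm.symm)
        · rw [h0, hm] at h1 h2
          exact hB h2 h1
      · rcases hm with hm | hm
        · rw [h0, hm] at h1 h2
          exact hB h1 h2
        · exact hne (h0.trans hm.symm)
    have e1 : c (m + 7) = c m := by
      by_contra h
      exact hB' h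
    have e2 : c (m + 7 + 7) = c (m + 7) := by
      by_contra h
      exact hB'' h
    rcases hm with hm | hm
    · rw [hm] at e1 e2
      have h1 := B2 x (c (m + 8)) 8 6 hW.1 rfl ⟨m, Or.inl ⟨e1.symm, rfl⟩⟩
        ⟨m + 8, Or.inr ⟨rfl, e2⟩⟩
      exact hW.2 (N4 _ _ _ Axy h1).symm
    · rw [hm] at e1 e2
      have h1 := B2 y (c (m + 8)) 8 6 hW.2 rfl ⟨m, Or.inl ⟨e1.symm, rfl⟩⟩
        ⟨m + 8, Or.inr ⟨rfl, e2⟩⟩
      exact hW.1 (N4 _ _ _ Ayx h1).symm
  have hall : ∀ n, c (j0 + 7 + n) = x ∨ c (j0 + 7 + n) = y := by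
    intro n
    induction n with
    | zero => exact W7 j0 (Or.inl hx.symm)
    | succ n ih =>
      have := W1 (j0 + n) (by
        have e : j0 + n + 7 = j0 + 7 + n := by omega
        rw [e]
        exact ih)
      have e : j0 + 7 + (n + 1) = j0 + n + 8 := by omega
      rw [e]
      exact this
  -- two colours
  have two : ∀ a b d : ℕ, c (j0 + 7 + a) ≠ c (j0 + 7 + b) → c (j0 + 7 + d) ≠ c (j0 + 7 + b) →
      c (j0 + 7 + a) = c (j0 + 7 + d) := by
    intro a b d h1 h2
    exact two_col (hall a) (hall b) (hall d) h1 h2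
  have p6 : ∀ n, c (j0 + 7 + (n + 10)) = c (j0 + 7 + (n + 16)) := by
    intro n
    refine two _ n _ ?_ ?_
    · have := n10 (j0 + 7 + n)
      rwa [Nat.add_assoc] at this
    · have := n16 (j0 + 7 + n)
      rwa [Nat.add_assoc] at this
  have q4 : ∀ n, c (j0 + 7 + (n + 14)) ≠ c (j0 + 7 + (n + 10)) := by
    intro n
    have h1 := p6 (n + 4)
    have h2 := n10 (j0 + 7 + (n + 10))
    have e1 : n + 4 + 10 = n + 14 := by omega
    have e2 : n + 4 + 16 = n + 20 := by omega
    have e3 : j0 + 7 + (n + 10) + 10 = j0 + 7 + (n + 20) := by omega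
    rw [e1, e2] at h1
    rw [e3] at h2
    rw [h1]
    exact h2
  have h8 := two 18 14 10 (q4 4) (Ne.symm (q4 0))
  have h9 := p6 2
  have h10 := p6 4
  -- c 12 = c 18 = c 10 , c 14 = c 20
  have h12 : c (j0 + 7 + 12) = c (j0 + 7 + 10) := h9.trans h8
  have h8' := two 20 16 12 (q4 6) (Ne.symm (q4 2))
  have h14 : c (j0 + 7 + 14) = c (j0 + 7 + 12) := h10.trans h8'
  exact q4 0 (h14.trans h12)

theorem cfg_cyc (hU : ∀ n, ∀ᶠ i in (U : Filter ℕ), i ≠ n) {P : ℕ → V}
    (hP : Function.Injective P) (hray : ∀ k, G.Adj (P k) (P (k + 1))) {c : ℕ → V}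
    (hc : ∀ j, Hub U G P j (c j)) {D : ℕ} (hD : 1 ≤ D) {x : V} {S : Finset V}
    (h : Cfg c D x S) (F : Finset V) (hxF : x ∉ F) (hSF : Disjoint S F) :
    ∃ T, CycAt G x (D + 2) T ∧ Disjoint T F := by
  rcases h with ⟨-, i, h1, h2⟩ | ⟨y, hyx, rfl, d, d', hdd, h1, h2⟩
  · have h3 := hc i
    have h4 := hc (i + D)
    rw [h1] at h3
    rw [h2] at h4
    exact hub_cyc hU hP hray h3 h4 hD F hxF
  · rw [Finset.disjoint_singleton_left] at hSF
    have hgap : ∀ d, Gap c x y d → Lk G (d + 2) x y := by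
      rintro d ⟨i, ⟨h1, h2⟩ | ⟨h1, h2⟩⟩
      · have h3 := hc i
        have h4 := hc (i + d)
        rw [h1] at h3
        rw [h2] at h4
        exact hub_lk hU hP hray h3 h4 (Ne.symm hyx)
      · have h3 := hc i
        have h4 := hc (i + d)
        rw [h1] at h3
        rw [h2] at h4
        exact (hub_lk hU hP hray h3 h4 hyx).symm
    obtain ⟨T, hT, hd⟩ := cyc_of_lk (Ne.symm hyx) (hgap d h1) (hgap d' h2) (by omega) (by omega)
      F hxF hSF
    have e : d + 2 + (d' + 2) = D + 2 := by omega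
    rw [e] at hT
    exact ⟨T, hT, hd⟩

theorem ray_two (hU : ∀ n, ∀ᶠ i in (U : Filter ℕ), i ≠ n) (hD : DiamThree G) {P : ℕ → V}
    (hP : Function.Injective P) (hray : ∀ k, G.Adj (P k) (P (k + 1))) : TwoCyc G := by
  have hgen : ∀ a : ℕ → V, CG U G a 12 → CG U G a 18 → TwoCyc G := by
    intro a h1 h2
    obtain ⟨i, hi1, hi2⟩ := (h1.and h2).exists
    obtain ⟨T₁, hT₁, -⟩ := hi1 ∅ (by simp)
    obtain ⟨T₂, hT₂, hd⟩ := hi2 (T₁.erase (a i)) (by simp)
    rw [Finset.disjoint_left] at hd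
    refine ⟨_, T₁, T₂, hT₁, hT₂, ?_⟩
    intro y hy hy'
    by_contra hne
    exact hd hy' (Finset.mem_erase.mpr ⟨hne, hy⟩)
  by_cases hub : ∀ c, ∃ x, Hub U G P c x
  · choose c hc using hub
    obtain ⟨x, S₁, S₂, h1, h2, h3⟩ := comb c
    have hx : ∀ D S, Cfg c D x S → x ∉ S := by
      rintro D S (⟨rfl, -⟩ | ⟨y, hy, rfl, -⟩)
      · simp
      · simp [Ne.symm hy]
    obtain ⟨T₁, hT₁, hd₁⟩ := cfg_cyc hU hP hray hc (by norm_num) h1 S₂ (hx _ _ h2) h3
    rw [Finset.disjoint_left] at hd₁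
    obtain ⟨T₂, hT₂, hd₂⟩ := cfg_cyc hU hP hray hc (by norm_num) h2 (T₁.erase x) (by simp) (by
      rw [Finset.disjoint_left]
      intro y hy hy'
      exact hd₁ (Finset.mem_of_mem_erase hy') hy)
    rw [Finset.disjoint_left] at hd₂
    refine ⟨x, T₁, T₂, hT₁, hT₂, ?_⟩
    intro y hy hy'
    by_contra hne
    exact hd₂ hy' (Finset.mem_erase.mpr ⟨hne, hy⟩)
  · push Not at hub
    obtain ⟨s, hs⟩ := hub
    have hPs := shift_inj hP s
    have hp : NC U (fun k => P (k + s)) := nc_of_inj hU hPs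
    rcases classify hD hp hs with h | ⟨X, Y, hT⟩
    · obtain ⟨a, _, h2⟩ := h.cycles
      exact hgen a (h2 6 (by omega)) (h2 9 (by omega))
    · have h6 := hT.lnk hp
      have f3 := hT.fwd hp
      refine hgen _ (CG.of hp (Lnk.fwd hp h6) h6 (by omega) (by omega)) ?_
      exact CG.of hp (Lnk.fwd hp (h6.six_mul hp 1)) h6 (by omega) (by omega)

end Q109.D3
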