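import Mathlib

/-!
# Paths with vertex sets, cycles through a vertex, linked vertices
-/

namespace Q109.D3

open Classical

variable {V : Type} {G : SimpleGraph V}

/-- `Pth G u w n T`: there is a path from `u` to `w` with `n` edges and vertex set `T` -/
inductive Pth (G : SimpleGraph V) : V → V → ℕ → Finset V → Prop
  | nil (u : V) : Pth G u u 0 {u}
  | cons (u v w : V) (n : ℕ) (T : Finset V) : u ∉ T → G.Adj u v → Pth G v w n T →
      Pth G u w (n + 1) (insert u T)

theorem Pth.left {u w : V} {n : ℕ} {T : Finset V} (h : Pth G u w n T) : u ∈ T := by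
  cases h <;> simp

theorem Pth.right {u w : V} {n : ℕ} {T : Finset V} (h : Pth G u w n T) : w ∈ T := by
  induction h with
  | nil u => simp
  | cons u v w n T _ _ _ ih => exact Finset.mem_insert_of_mem ih

theorem Pth.snoc {u w : V} {n : ℕ} {T : Finset V} (h : Pth G u w n T) (z : V) (hz : z ∉ T)
    (hwz : G.Adj w z) : Pth G u z (n + 1) (insert z T) := by
  induction h with
  | nil u =>
    have hne : u ≠ z := fun e => hz (by simp [e])
    have h1 : Pth G u z (0 + 1) (insert u {z}) :=
      Pth.cons u z z 0 {z} (by simp [hne]) hwz (Pth.nil z)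
    rwa [Finset.pair_comm] at h1
  | cons u v w n T hu hadj h ih =>
    have hzT : z ∉ T := fun h => hz (Finset.mem_insert_of_mem h)
    have h1 := ih hzT hwz
    have huz : u ≠ z := fun e => hz (by simp [e])
    have h2 : Pth G u z (n + 1 + 1) (insert u (insert z T)) := by
      refine Pth.cons u v z (n + 1) (insert z T) ?_ hadj h1
      rw [Finset.mem_insert, not_or]
      exact ⟨huz, hu⟩
    rwa [Finset.insert_comm] at h2

theorem Pth.symm {u w : V} {n : ℕ} {T : Finset V} (h : Pth G u w n T) : Pth G w u n T := by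
  induction h with
  | nil u => exact Pth.nil u
  | cons u v w n T hu hadj _ ih => exact ih.snoc u hu hadj.symm

theorem Pth.concat {u x w : V} {n m : ℕ} {T₁ T₂ : Finset V} (h₁ : Pth G u x n T₁)
    (h₂ : Pth G x w m T₂) (hd : ∀ y ∈ T₁, y ∈ T₂ → y = x) : Pth G u w (n + m) (T₁ ∪ T₂) := by
  induction h₁ with
  | nil u =>
    have : ({u} : Finset V) ∪ T₂ = T₂ := by
      rw [Finset.union_eq_right, Finset.singleton_subset_iff]
      exact h₂.left
    rw [this, Nat.zero_add]
    exact h₂
  | cons u v x n T hu hadj h ih =>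
    have h1 := ih h₂ (fun y hy hy2 => hd y (Finset.mem_insert_of_mem hy) hy2)
    have hux : u ≠ x := fun e => hu (e ▸ h.right)
    have e : n + 1 + m = (n + m) + 1 := by omega
    rw [e, Finset.insert_union]
    refine Pth.cons u v w (n + m) (T ∪ T₂) ?_ hadj h1
    rw [Finset.mem_union, not_or]
    exact ⟨hu, fun h2 => hux (hd u (Finset.mem_insert_self _ _) h2)⟩

/-- the vertices of a path as a function -/
theorem Pth.fn {u w : V} {n : ℕ} {T : Finset V} (h : Pth G u w n T) :
    ∃ f : ℕ → V, f 0 = u ∧ f n = w ∧ (∀ i ≤ n, f i ∈ T) ∧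
      (∀ i j, i ≤ n → j ≤ n → f i = f j → i = j) ∧ ∀ i < n, G.Adj (f i) (f (i + 1)) := by
  induction h with
  | nil u =>
    refine ⟨fun _ => u, rfl, rfl, ?_, ?_, ?_⟩
    · intro i _
      simp
    · intro i j hi hj _
      omega
    · intro i hi
      omega
  | cons u v w n T hu hadj _ ih =>
    obtain ⟨f, h0, hn, h1, h2, h3⟩ := ih
    let g : ℕ → V := fun i => Nat.casesOn i u f
    have g0 : g 0 = u := rfl
    have gs : ∀ i, g (i + 1) = f i := fun _ => rfl
    refine ⟨g, g0, ?_, ?_, ?_, ?_⟩
    · rw [gs, hn]
    · intro i hi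
      cases i with
      | zero => exact Finset.mem_insert_self _ _
      | succ i => exact Finset.mem_insert_of_mem (h1 i (by omega))
    · intro i j hi hj hij
      cases i with
      | zero =>
        cases j with
        | zero => rfl
        | succ j =>
          rw [g0, gs] at hij
          exact absurd (hij ▸ h1 j (by omega)) hu
      | succ i =>
        cases j with
        | zero =>
          rw [g0, gs] at hij
          exact absurd (hij ▸ h1 i (by omega)) hu
        | succ j =>
          rw [gs, gs] at hij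
          rw [h2 i j (by omega) (by omega) hij]
    · intro i hi
      cases i with
      | zero =>
        rw [g0, gs, h0]
        exact hadj
      | succ i =>
        rw [gs, gs]
        exact h3 i (by omega)

/-- a function giving a path -/
theorem Pth.of_fn (f : ℕ → V) (n : ℕ) (hinj : ∀ i j, i ≤ n → j ≤ n → f i = f j → i = j)
    (hadj : ∀ i < n, G.Adj (f i) (f (i + 1))) :
    Pth G (f 0) (f n) n ((Finset.range (n + 1)).image f) := by
  induction n with
  | zero =>
    have : (Finset.range (0 + 1)).image f = {f 0} := by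
      ext x
      simp
    rw [this]
    exact Pth.nil _
  | succ n ih =>
    have h1 := ih (fun i j hi hj => hinj i j (by omega) (by omega))
      (fun i hi => hadj i (by omega))
    have h2 := h1.snoc (f (n + 1)) (by
      intro h
      rw [Finset.mem_image] at h
      obtain ⟨i, hi, hi'⟩ := h
      rw [Finset.mem_range] at hi
      have := hinj i (n + 1) (by omega) (by omega) hi'
      omega) (hadj n (by omega))
    have e : (Finset.range (n + 1 + 1)).image f =
        insert (f (n + 1)) ((Finset.range (n + 1)).image f) := by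
      rw [Finset.range_add_one (n := n + 1), Finset.image_insert]
    rw [e]
    exact h2

/-- a cycle of length `N` through `v` with vertex set `T` -/
def CycAt (G : SimpleGraph V) (v : V) (N : ℕ) (T : Finset V) : Prop :=
  3 ≤ N ∧ ∃ w, Pth G v w (N - 1) T ∧ G.Adj w v

theorem CycAt.of_two {v w : V} {n m : ℕ} {T₁ T₂ : Finset V} (h₁ : Pth G v w n T₁)
    (h₂ : Pth G v w m T₂) (hd : ∀ y ∈ T₁, y ∈ T₂ → y = v ∨ y = w) (hm : 2 ≤ m)
    (hnm : 3 ≤ n + m) : ∃ T, CycAt G v (n + m) T ∧ T ⊆ T₁ ∪ T₂ := by
  cases h₂ with
  | nil => omega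
  | cons _ u _ m T hv hadj h =>
    have h2 := h.symm
    have h3 := h₁.concat h2 (by
      intro y hy hy'
      rcases hd y hy (Finset.mem_insert_of_mem hy') with h | h
      · exact absurd (h ▸ hy') hv
      · exact h)
    refine ⟨T₁ ∪ T, ⟨hnm, u, ?_, hadj.symm⟩, ?_⟩
    · have e : n + (m + 1) - 1 = n + m := by omega
      rw [e]
      exact h3
    · exact Finset.union_subset_union_right (Finset.subset_insert _ _)

theorem CycAt.mem {v : V} {N : ℕ} {T : Finset V} (h : CycAt G v N T) : v ∈ T := by
  obtain ⟨_, w, hw, _⟩ := h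
  exact hw.left

/-- `u` and `w` are joined by paths of length `n` avoiding any given finite set -/
def Lk (G : SimpleGraph V) (n : ℕ) (u w : V) : Prop :=
  ∀ F : Finset V, u ∉ F → w ∉ F → ∃ T, Pth G u w n T ∧ Disjoint T F

theorem Lk.symm {n : ℕ} {u w : V} (h : Lk G n u w) : Lk G n w u := by
  intro F h1 h2
  obtain ⟨T, h3, h4⟩ := h F h2 h1
  exact ⟨T, h3.symm, h4⟩

end Q109.D3
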