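import Pool.Agent.Q109.TD2.Defs
import Pool.Agent.Q109.D3.Path

/-!
# Treedepth by rooted forests, and long paths in graphs of large treedepth
-/

namespace Q109.D3

open Classical Q109.TD2

variable {V : Type} {G : SimpleGraph V}

/-- the `n`-th ancestor of `v` in the rooted forest with parent function `par` -/
def up (par : V → Option V) : ℕ → V → Option V
  | 0, v => some v
  | n + 1, v => match par v with
    | none => none
    | some w => up par n w

/-- there is a rooted forest on the vertex set, given by its parent function `par`, of height at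
most `h` (no vertex has an `h`-th ancestor, so root-to-leaf paths have at most `h` vertices), in
which the two ends of every edge of `G` are in ancestor-descendant relation -/
def TreedepthLe (G : SimpleGraph V) (h : ℕ) : Prop :=
  ∃ par : V → Option V, (∀ v, up par h v = none) ∧
    ∀ u v, G.Adj u v → (∃ n, up par n v = some u) ∨ (∃ n, up par n u = some v)

theorem conn_trans {S : Finset V} {u v w : V} (h1 : Conn G S u v) (h2 : Conn G S v w) :
    Conn G S u w := by
  rw [conn_iff] at h1 h2 ⊢
  obtain ⟨a, b, c⟩ := h1
  obtain ⟨a', b', c'⟩ := h2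
  exact ⟨a, b', c.trans c'⟩

theorem conn_symm {S : Finset V} {u v : V} (h1 : Conn G S u v) : Conn G S v u := by
  rw [conn_iff] at h1 ⊢
  obtain ⟨a, b, c⟩ := h1
  exact ⟨b, a, c.symm⟩

theorem conn_mono {S S' : Finset V} {u v : V} (h : Conn G S u v) (hs : S ⊆ S') :
    Conn G S' u v := by
  obtain ⟨n, T, h1, h2⟩ := h
  exact ⟨n, T, h1, h2.trans hs⟩

theorem comp_td (m : ℕ) : ∀ S : Finset V, S.card = m → ∀ c d, c ∈ S →
    (∀ z ∈ S, Conn G S z c) → (∀ w n T, Pth G c w n T → T ⊆ S → n + 1 ≤ d) → TDle G d S := by
  induction m using Nat.strong_induction_on with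
  | _ m ih =>
    intro S hS c d hc hconn hpath
    have hd := hpath c 0 {c} (Pth.nil c) (by simpa using hc)
    obtain ⟨d, rfl⟩ : ∃ j, d = j + 1 := ⟨d - 1, by omega⟩
    refine TDle.apex d S c hc ?_
    refine TDle_of_connected d _ (S.erase c) rfl ?_
    intro D hD hDc
    rw [connected_iff] at hDc
    obtain ⟨⟨z, hz⟩, hDc⟩ := hDc
    have hzS := hD hz
    obtain ⟨n, T, h1, h2⟩ := hconn z (Finset.mem_of_mem_erase hzS)
    have h3 := h1.symm
    cases h3 with
    | single => exact absurd hzS (Finset.notMem_erase _ _)
    | cons _ u _ n T hcT hadj _ h3 =>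
      have hT : T ⊆ S.erase c := by
        intro y hy
        refine Finset.mem_erase.mpr ⟨?_, h2 (Finset.mem_insert_of_mem hy)⟩
        rintro rfl
        exact hcT hy
      have huz : Conn G (S.erase c) u z := ⟨n, T, h3, hT⟩
      have hu : u ∈ S.erase c := hT h3.left
      have hsub := comp_subset (G := G) (S.erase c) u
      have hcard : (comp G (S.erase c) u).card < m := by
        rw [← hS]
        exact lt_of_le_of_lt (Finset.card_le_card hsub) (Finset.card_erase_lt_of_mem hc)
      have h4 := ih _ hcard _ rfl u d (self_mem_comp hu)
        (fun y hy => comp_conn (mem_comp.mp hy).2) (by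
          intro w n' T' h5 h6
          have hcT' : c ∉ T' := fun h => Finset.notMem_erase c S (hsub (h6 h))
          have h7 := hpath w (n' + 1) (insert c T') (Pth.cons c u w n' T' hcT' hadj h5) (by
            refine Finset.insert_subset hc ?_
            exact (h6.trans hsub).trans (Finset.erase_subset _ _))
          omega)
      refine h4.subset D ?_
      intro y hy
      refine mem_comp.mpr ⟨hD hy, ?_⟩
      exact conn_trans (conn_mono (hDc y hy z hz) hD) (conn_symm huz)

theorem td_of_nopath [Fintype V] (n : ℕ) (h : ∀ u w T, ¬ Pth G u w n T) :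
    TDle G n Finset.univ := by
  have h' : ∀ u w m T, Pth G u w m T → m + 1 ≤ n := by
    intro u w m T hT
    by_contra hlt
    obtain ⟨f, _, _, _, h2, h3⟩ := hT.fn
    exact h _ _ _ (Pth.of_fn f n (fun i j hi hj => h2 i j (by omega) (by omega))
      (fun i hi => h3 i (by omega)))
  refine TDle_of_connected n _ Finset.univ rfl ?_
  intro D _ hDc
  rw [connected_iff] at hDc
  obtain ⟨⟨c, hc⟩, hDc⟩ := hDc
  exact comp_td D.card D rfl c n hc (fun z hz => hDc z hz c hc) (fun w m T hT _ => h' _ _ _ _ hT)

/-! ### forests -/

theorem up_agree {par par' : V → Option V} {S : Finset V} (hst : ∀ v ∈ S, ∀ u, par v = some u →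
    u ∈ S) (hag : ∀ v ∈ S, par' v = par v) (n : ℕ) : ∀ v ∈ S, up par' n v = up par n v := by
  induction n with
  | zero =>
    intro v _
    rfl
  | succ n ih =>
    intro v hv
    rw [up, up, hag v hv]
    cases h : par v with
    | none => rfl
    | some w => exact ih w (hst v hv w h)

theorem forest_of_td {d : ℕ} {S : Finset V} (h : TDle G d S) : ∃ par : V → Option V,
    (∀ v ∈ S, up par d v = none) ∧ (∀ v ∈ S, ∀ u, par v = some u → u ∈ S) ∧
    ∀ u ∈ S, ∀ v ∈ S, G.Adj u v → (∃ n, up par n v = some u) ∨ (∃ n, up par n u = some v) := by
  induction h with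
  | empty d => exact ⟨fun _ => none, by simp, by simp, by simp⟩
  | apex d S v hv _ ih =>
    obtain ⟨par', h1, h2, h3⟩ := ih
    let par : V → Option V := fun u => if u = v then none else
      match par' u with
      | none => some v
      | some w => some w
    have pv : par v = none := if_pos rfl
    have pn : ∀ u, u ≠ v → par' u = none → par u = some v := by
      intro u hu h
      simp only [par, if_neg hu, h]
    have ps : ∀ u w, u ≠ v → par' u = some w → par u = some w := by
      intro u w hu h
      simp only [par, if_neg hu, h]
    have hne : ∀ u ∈ S.erase v, u ≠ v := fun u hu => (Finset.mem_erase.mp hu).1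
    have k1 : ∀ n, ∀ u ∈ S.erase v, ∀ w, up par' n u = some w → up par n u = some w := by
      intro n
      induction n with
      | zero =>
        intro u _ w h
        exact h
      | succ n ih =>
        intro u hu w h
        rw [up] at h ⊢
        cases hp : par' u with
        | none =>
          rw [hp] at h
          simp at h
        | some z =>
          rw [hp] at h
          rw [ps u z (hne u hu) hp]
          exact ih z (h2 u hu z hp) w h
    have k2 : ∀ n, ∀ u ∈ S.erase v, up par' n u = none →
        up par (n + 1) u = none ∧ ∃ m, up par m u = some v := by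
      intro n
      induction n with
      | zero =>
        intro u _ h
        simp [up] at h
      | succ n ih =>
        intro u hu h
        rw [up] at h
        cases hp : par' u with
        | none =>
          have hp' := pn u (hne u hu) hp
          constructor
          · rw [up, hp']
            simp only
            rw [up, pv]
          · refine ⟨1, ?_⟩
            rw [up, hp']
            rfl
        | some z =>
          rw [hp] at h
          have hp' := ps u z (hne u hu) hp
          obtain ⟨h4, m, h5⟩ := ih z (h2 u hu z hp) h
          constructor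
          · rw [up, hp']
            exact h4
          · refine ⟨m + 1, ?_⟩
            rw [up, hp']
            exact h5
    refine ⟨par, ?_, ?_, ?_⟩
    · intro u hu
      by_cases huv : u = v
      · subst huv
        rw [up, pv]
      · exact (k2 d u (Finset.mem_erase.mpr ⟨huv, hu⟩) (h1 u (Finset.mem_erase.mpr ⟨huv, hu⟩))).1
    · intro u hu w hw
      by_cases huv : u = v
      · subst huv
        rw [pv] at hw
        simp at hw
      · have hu' : u ∈ S.erase v := Finset.mem_erase.mpr ⟨huv, hu⟩
        cases hp : par' u with
        | none =>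
          rw [pn u huv hp] at hw
          cases hw
          exact hv
        | some z =>
          rw [ps u z huv hp] at hw
          cases hw
          exact Finset.mem_of_mem_erase (h2 u hu' w hp)
    · intro u hu w hw hadj
      by_cases huv : u = v
      · subst huv
        have hwu : w ≠ u := hadj.ne.symm
        have hw' : w ∈ S.erase u := Finset.mem_erase.mpr ⟨hwu, hw⟩
        exact Or.inl (k2 d w hw' (h1 w hw')).2
      · have hu' : u ∈ S.erase v := Finset.mem_erase.mpr ⟨huv, hu⟩
        by_cases hwv : w = v
        · subst hwv
          exact Or.inr (k2 d u hu' (h1 u hu')).2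
        · have hw' : w ∈ S.erase v := Finset.mem_erase.mpr ⟨hwv, hw⟩
          rcases h3 u hu' w hw' hadj with ⟨n, hn⟩ | ⟨n, hn⟩
          · exact Or.inl ⟨n, k1 n w hw' u hn⟩
          · exact Or.inr ⟨n, k1 n u hu' w hn⟩
  | union d A B hn _ _ ihA ihB =>
    obtain ⟨pA, a1, a2, a3⟩ := ihA
    obtain ⟨pB, b1, b2, b3⟩ := ihB
    let par : V → Option V := fun u => if u ∈ A then pA u else pB u
    have hA : ∀ v ∈ A, par v = pA v := fun v hv => if_pos hv
    have hBA : ∀ v ∈ B, v ∉ A := fun v hv hvA => (hn v hvA v hv).1 rfl
    have hB : ∀ v ∈ B, par v = pB v := fun v hv => if_neg (hBA v hv)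
    have kA := fun n => up_agree (par := pA) (par' := par) a2 hA n
    have kB := fun n => up_agree (par := pB) (par' := par) b2 hB n
    refine ⟨par, ?_, ?_, ?_⟩
    · intro v hv
      rcases Finset.mem_union.mp hv with hv | hv
      · rw [kA d v hv]
        exact a1 v hv
      · rw [kB d v hv]
        exact b1 v hv
    · intro v hv u hu
      rcases Finset.mem_union.mp hv with hv | hv
      · rw [hA v hv] at hu
        exact Finset.mem_union_left _ (a2 v hv u hu)
      · rw [hB v hv] at hu
        exact Finset.mem_union_right _ (b2 v hv u hu)
    · intro u hu v hv hadj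
      rcases Finset.mem_union.mp hu with hu | hu
      · rcases Finset.mem_union.mp hv with hv | hv
        · rcases a3 u hu v hv hadj with ⟨n, h⟩ | ⟨n, h⟩
          · exact Or.inl ⟨n, by rw [kA n v hv]; exact h⟩
          · exact Or.inr ⟨n, by rw [kA n u hu]; exact h⟩
        · exact absurd hadj (hn u hu v hv).2
      · rcases Finset.mem_union.mp hv with hv | hv
        · exact absurd hadj.symm (hn v hv u hu).2
        · rcases b3 u hu v hv hadj with ⟨n, h⟩ | ⟨n, h⟩
          · exact Or.inl ⟨n, by rw [kB n v hv]; exact h⟩
          · exact Or.inr ⟨n, by rw [kB n u hu]; exact h⟩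

/-- a graph without a path of length `n` has treedepth at most `n` -/
theorem treedepthLe_of_nopath [Fintype V] (n : ℕ) (h : ∀ u w T, ¬ Pth G u w n T) :
    TreedepthLe G n := by
  obtain ⟨par, h1, _, h3⟩ := forest_of_td (td_of_nopath n h)
  exact ⟨par, fun v => h1 v (Finset.mem_univ _),
    fun u v => h3 u (Finset.mem_univ _) v (Finset.mem_univ _)⟩

/-- treedepth: the smallest height -/
noncomputable def treedepth (G : SimpleGraph V) : ℕ := sInf {h | TreedepthLe G h}

/-- on finite graphs the minimum in the definition of the treedepth exists -/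
theorem treedepth_attained [Fintype V] (G : SimpleGraph V) : TreedepthLe G (treedepth G) := by
  apply Nat.sInf_mem (s := {h | TreedepthLe G h})
  refine ⟨Fintype.card V, treedepthLe_of_nopath _ ?_⟩
  intro u w T hT
  obtain ⟨f, _, _, _, h2, _⟩ := hT.fn
  have h4 : Function.Injective (fun i : Fin (Fintype.card V + 1) => f i.val) := by
    intro i j hij
    exact Fin.ext (h2 i.val j.val (by omega) (by omega) hij)
  have h5 := Fintype.card_le_of_injective _ h4
  rw [Fintype.card_fin] at h5
  omega

end Q109.D3
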