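import Pool.Agent.Q109.D3.Ultra

/-!
# The graph obtained from cycles of lengths 12 and 18 by identifying one vertex
-/

namespace Q109.D3

open Classical Filter

/-- the cycles `0, 1, ..., 11` and `0, 12, 13, ..., 28` -/
def glued : SimpleGraph (Fin 29) := SimpleGraph.fromRel (fun i j =>
  (i.val + 1 = j.val ∧ j.val ≤ 11) ∨ (i.val = 11 ∧ j.val = 0) ∨ (i.val = 0 ∧ j.val = 12) ∨
  (12 ≤ i.val ∧ i.val + 1 = j.val) ∨ (i.val = 28 ∧ j.val = 0))

theorem glued_contained {V : Type} {H : SimpleGraph V} (h : TwoCyc H) : glued.IsContained H := by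
  obtain ⟨v, T₁, T₂, ⟨_, w₁, hw₁, hv₁⟩, ⟨_, w₂, hw₂, hv₂⟩, hd⟩ := h
  obtain ⟨f, f0, fn, fT, finj, fadj⟩ := hw₁.fn
  obtain ⟨g, g0, gn, gT, ginj, gadj⟩ := hw₂.fn
  norm_num at fn fT finj fadj gn gT ginj gadj
  have key : ∀ i j : Fin 29, ((i.val + 1 = j.val ∧ j.val ≤ 11) ∨ (i.val = 11 ∧ j.val = 0) ∨
      (i.val = 0 ∧ j.val = 12) ∨ (12 ≤ i.val ∧ i.val + 1 = j.val) ∨ (i.val = 28 ∧ j.val = 0)) →
      H.Adj (if i.val ≤ 11 then f i.val else g (i.val - 11))
        (if j.val ≤ 11 then f j.val else g (j.val - 11)) := by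
    rintro i j (⟨h1, h2⟩ | ⟨h1, h2⟩ | ⟨h1, h2⟩ | ⟨h1, h2⟩ | ⟨h1, h2⟩)
    · rw [if_pos (by omega), if_pos h2, ← h1]
      exact fadj i.val (by omega)
    · rw [if_pos (by omega), if_pos (by omega), h1, h2, f0, fn]
      exact hv₁
    · rw [if_pos (by omega), if_neg (by omega), h1, h2, f0, ← g0]
      exact gadj 0 (by norm_num)
    · rw [if_neg (by omega), if_neg (by omega)]
      have e : j.val - 11 = i.val - 11 + 1 := by omega
      rw [e]
      exact gadj _ (by omega)
    · rw [if_neg (by omega), if_pos (by omega), h1, h2, f0]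
      have e : 28 - 11 = 17 := by norm_num
      rw [e, gn]
      exact hv₂
  refine ⟨⟨⟨fun i => if i.val ≤ 11 then f i.val else g (i.val - 11), ?_⟩, ?_⟩⟩
  · intro i j hij
    rw [glued, SimpleGraph.fromRel_adj] at hij
    rcases hij.2 with h | h
    · exact key i j h
    · exact (key j i h).symm
  · intro i j hij
    have hij' : (if i.val ≤ 11 then f i.val else g (i.val - 11)) =
        (if j.val ≤ 11 then f j.val else g (j.val - 11)) := hij
    by_cases hi : i.val ≤ 11
    · by_cases hj : j.val ≤ 11
      · rw [if_pos hi, if_pos hj] at hij'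
        exact Fin.ext (finj _ _ hi hj hij')
      · rw [if_pos hi, if_neg hj] at hij'
        have h1 := hd (f i.val) (fT _ hi) (by rw [hij']; exact gT _ (by omega))
        rw [hij', ← g0] at h1
        have := ginj _ _ (by omega) (by omega) h1
        omega
    · by_cases hj : j.val ≤ 11
      · rw [if_neg hi, if_pos hj] at hij'
        have h1 := hd (f j.val) (fT _ hj) (by rw [← hij']; exact gT _ (by omega))
        rw [← hij', ← g0] at h1
        have := ginj _ _ (by omega) (by omega) h1
        omega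
      · rw [if_neg hi, if_neg hj] at hij'
        have := ginj _ _ (by omega) (by omega) hij'
        exact Fin.ext (by omega)

/-- distance at most three, in terms of the graph metric -/
theorem diamThree_of_dist {V : Type} {G : SimpleGraph V} (hc : G.Connected)
    (h : ∀ u v, G.dist u v ≤ 3) : DiamThree G := by
  intro u v
  obtain ⟨p, hp⟩ := hc.exists_walk_length_eq_dist u v
  have h3 := h u v
  rw [← hp] at h3
  cases p with
  | nil => exact Or.inl rfl
  | cons a p =>
    cases p with
    | nil => exact Or.inr (Or.inl a)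
    | cons b p =>
      cases p with
      | nil => exact Or.inr (Or.inr (Or.inl ⟨_, a, b⟩))
      | cons c p =>
        cases p with
        | nil => exact Or.inr (Or.inr (Or.inr ⟨_, _, a, b, c⟩))
        | cons d p =>
          simp only [SimpleGraph.Walk.length_cons] at h3
          omega

theorem glued_bounded : ∃ c : ℕ, ∀ (V : Type) [Fintype V] (H : SimpleGraph V), glued.Free H →
    DiamThree H → TreedepthLe H c := by
  apply bounded_of_infinite
  rintro V H hD ⟨P, hP, hray⟩
  exact glued_contained (ray_two HU_ne hD hP hray)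

end Q109.D3
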