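import Pool.Agent.Q109.D3.Td
import Pool.Agent.Q109.D3.Hub

/-!
# Compactness: from unbounded treedepth to an infinite graph with a ray
-/

namespace Q109.D3

open Classical Filter

/-- the nonprincipal ultrafilter -/
noncomputable abbrev HU : Ultrafilter ℕ := Filter.hyperfilter ℕ

theorem HU_ne (n : ℕ) : ∀ᶠ i in (HU : Filter ℕ), i ≠ n := by
  apply Filter.hyperfilter_le_cofinite
  rw [Filter.mem_cofinite]
  refine (Set.finite_singleton n).subset ?_
  intro x hx
  simpa using hx

theorem HU_ge (n : ℕ) : ∀ᶠ i in (HU : Filter ℕ), n ≤ i := by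
  apply Filter.hyperfilter_le_cofinite
  rw [Filter.mem_cofinite]
  refine (Set.finite_lt_nat n).subset ?_
  intro x hx
  simpa using hx

variable (W : ℕ → Type)

/-- equality almost everywhere -/
def aeSetoid : Setoid (∀ n, W n) where
  r f g := ∀ᶠ n in (HU : Filter ℕ), f n = g n
  iseqv := by
    refine ⟨?_, ?_, ?_⟩
    · intro f
      exact Filter.Eventually.of_forall (fun _ => rfl)
    · intro f g h
      filter_upwards [h] with n hn
      exact hn.symm
    · intro f g k h1 h2
      filter_upwards [h1, h2] with n hn hn2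
      exact hn.trans hn2

/-- the vertex set of the ultraproduct -/
def UV : Type := Quotient (aeSetoid W)

variable {W}
variable (G : ∀ n, SimpleGraph (W n))

/-- the adjacency of the ultraproduct -/
def uadj (a b : UV W) : Prop :=
  Quotient.liftOn₂ a b (fun f g => ∀ᶠ n in (HU : Filter ℕ), (G n).Adj (f n) (g n)) (by
    intro f g f' g' h1 h2
    apply propext
    constructor
    · intro h
      filter_upwards [h, h1, h2] with n hn hn1 hn2
      rw [← hn1, ← hn2]
      exact hn
    · intro h
      filter_upwards [h, h1, h2] with n hn hn1 hn2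
      rw [hn1, hn2]
      exact hn)

/-- the ultraproduct of the graphs `G n` -/
def UG : SimpleGraph (UV W) where
  Adj := uadj G
  symm := by
    constructor
    intro a b
    induction a using Quotient.inductionOn
    induction b using Quotient.inductionOn
    rename_i f g
    intro h
    change ∀ᶠ n in (HU : Filter ℕ), (G n).Adj (f n) (g n) at h
    change ∀ᶠ n in (HU : Filter ℕ), (G n).Adj (g n) (f n)
    filter_upwards [h] with n hn
    exact hn.symm
  loopless := by
    constructor
    intro a
    induction a using Quotient.inductionOn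
    rename_i f
    intro h
    change ∀ᶠ n in (HU : Filter ℕ), (G n).Adj (f n) (f n) at h
    obtain ⟨n, hn⟩ := h.exists
    exact hn.ne rfl

/-- the class of a sequence -/
def cls (f : ∀ n, W n) : UV W := Quotient.mk (aeSetoid W) f

theorem cls_adj (f g : ∀ n, W n) :
    (UG G).Adj (cls f) (cls g) ↔ ∀ᶠ n in (HU : Filter ℕ), (G n).Adj (f n) (g n) := Iff.rfl

theorem cls_eq (f g : ∀ n, W n) : cls f = cls g ↔ ∀ᶠ n in (HU : Filter ℕ), f n = g n :=
  ⟨fun h => Quotient.exact h, fun h => Quotient.sound h⟩

theorem cls_surj (a : UV W) : ∃ f, cls f = a := Quotient.exists_rep a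

theorem ug_diam (h : ∀ n, DiamThree (G n)) : DiamThree (UG G) := by
  intro a b
  obtain ⟨f, rfl⟩ := cls_surj a
  obtain ⟨g, rfl⟩ := cls_surj b
  by_cases h1 : ∀ᶠ n in (HU : Filter ℕ), f n = g n
  · exact Or.inl ((cls_eq f g).mpr h1)
  by_cases h2 : ∀ᶠ n in (HU : Filter ℕ), (G n).Adj (f n) (g n)
  · exact Or.inr (Or.inl h2)
  by_cases h3 : ∀ᶠ n in (HU : Filter ℕ), ∃ x, (G n).Adj (f n) x ∧ (G n).Adj x (g n)
  · right; right; left
    let x : ∀ n, W n := fun n => if h : ∃ x, (G n).Adj (f n) x ∧ (G n).Adj x (g n) then h.choose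
      else f n
    have hx : ∀ n, (∃ x, (G n).Adj (f n) x ∧ (G n).Adj x (g n)) →
        (G n).Adj (f n) (x n) ∧ (G n).Adj (x n) (g n) := by
      intro n h
      have : x n = h.choose := dif_pos h
      rw [this]
      exact h.choose_spec
    refine ⟨cls x, ?_, ?_⟩
    · rw [cls_adj]
      filter_upwards [h3] with n hn
      exact (hx n hn).1
    · rw [cls_adj]
      filter_upwards [h3] with n hn
      exact (hx n hn).2
  · right; right; right
    have h4 : ∀ᶠ n in (HU : Filter ℕ), ∃ xy : W n × W n,
        (G n).Adj (f n) xy.1 ∧ (G n).Adj xy.1 xy.2 ∧ (G n).Adj xy.2 (g n) := by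
      filter_upwards [flip1 h1, flip1 h2, flip1 h3] with n n1 n2 n3
      rcases h n (f n) (g n) with h | h | h | ⟨x, y, h⟩
      · exact absurd h n1
      · exact absurd h n2
      · exact absurd h n3
      · exact ⟨(x, y), h⟩
    let x : ∀ n, W n × W n := fun n => if h : ∃ xy : W n × W n,
        (G n).Adj (f n) xy.1 ∧ (G n).Adj xy.1 xy.2 ∧ (G n).Adj xy.2 (g n) then h.choose
      else (f n, f n)
    have hx : ∀ n, (∃ xy : W n × W n,
        (G n).Adj (f n) xy.1 ∧ (G n).Adj xy.1 xy.2 ∧ (G n).Adj xy.2 (g n)) →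
        (G n).Adj (f n) (x n).1 ∧ (G n).Adj (x n).1 (x n).2 ∧ (G n).Adj (x n).2 (g n) := by
      intro n h
      have : x n = h.choose := dif_pos h
      rw [this]
      exact h.choose_spec
    refine ⟨cls (fun n => (x n).1), cls (fun n => (x n).2), ?_, ?_, ?_⟩
    · rw [cls_adj]
      filter_upwards [h4] with n hn
      exact (hx n hn).1
    · rw [cls_adj]
      filter_upwards [h4] with n hn
      exact (hx n hn).2.1
    · rw [cls_adj]
      filter_upwards [h4] with n hn
      exact (hx n hn).2.2

theorem ug_contained {k : ℕ} (F : SimpleGraph (Fin k)) (h : F.IsContained (UG G)) :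
    ∃ n, F.IsContained (G n) := by
  obtain ⟨φ⟩ := h
  have hs : ∀ i : Fin k, ∃ f : ∀ n, W n, cls f = φ i := fun i => cls_surj _
  choose f hf using hs
  have h1 : ∀ᶠ n in (HU : Filter ℕ), ∀ i j : Fin k, i ≠ j → f i n ≠ f j n := by
    rw [Filter.eventually_all]
    intro i
    rw [Filter.eventually_all]
    intro j
    by_cases hij : i = j
    · exact Filter.Eventually.of_forall (fun _ h => absurd hij h)
    · have h2 : ¬ ∀ᶠ n in (HU : Filter ℕ), f i n = f j n := by
        intro h
        rw [← cls_eq, hf, hf] at h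
        exact hij (φ.injective h)
      filter_upwards [flip1 h2] with n hn
      exact fun _ => hn
  have h2 : ∀ᶠ n in (HU : Filter ℕ), ∀ i j : Fin k, F.Adj i j → (G n).Adj (f i n) (f j n) := by
    rw [Filter.eventually_all]
    intro i
    rw [Filter.eventually_all]
    intro j
    by_cases hij : F.Adj i j
    · have h3 : (UG G).Adj (φ i) (φ j) := φ.toHom.map_adj hij
      rw [← hf, ← hf, cls_adj] at h3
      filter_upwards [h3] with n hn
      exact fun _ => hn
    · exact Filter.Eventually.of_forall (fun _ h => absurd h hij)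
  obtain ⟨n, hn1, hn2⟩ := (h1.and h2).exists
  refine ⟨n, ⟨⟨⟨fun i => f i n, fun {i j} h => hn2 i j h⟩, ?_⟩⟩⟩
  intro i j hij
  by_contra hne
  exact hn1 i j hne hij

theorem ug_ray (hpath : ∀ n, ∃ u w T, Pth (G n) u w n T) : ∃ P : ℕ → UV W,
    Function.Injective P ∧ ∀ k, (UG G).Adj (P k) (P (k + 1)) := by
  have h1 : ∀ n, ∃ f : ℕ → W n, (∀ i j, i ≤ n → j ≤ n → f i = f j → i = j) ∧
      ∀ i < n, (G n).Adj (f i) (f (i + 1)) := by
    intro n
    obtain ⟨u, w, T, hT⟩ := hpath n
    obtain ⟨f, _, _, _, h2, h3⟩ := hT.fn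
    exact ⟨f, h2, h3⟩
  choose f hinj hadj using h1
  refine ⟨fun k => cls (fun n => f n k), ?_, ?_⟩
  · intro i j hij
    by_contra hne
    rw [cls_eq] at hij
    obtain ⟨n, hn, hni, hnj⟩ := (hij.and ((HU_ge i).and (HU_ge j))).exists
    exact hne (hinj n i j hni hnj hn)
  · intro k
    rw [cls_adj]
    filter_upwards [HU_ge (k + 1)] with n hn
    exact hadj n k hn

/-- **Compactness.** -/
theorem bounded_of_infinite {k : ℕ} (F : SimpleGraph (Fin k))
    (hinf : ∀ (V : Type) (H : SimpleGraph V), DiamThree H →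
      (∃ P : ℕ → V, Function.Injective P ∧ ∀ k, H.Adj (P k) (P (k + 1))) → F.IsContained H) :
    ∃ c : ℕ, ∀ (V : Type) [Fintype V] (H : SimpleGraph V), F.Free H → DiamThree H →
      TreedepthLe H c := by
  by_contra hcon
  push Not at hcon
  choose W hfin G hfree hdiam htd using hcon
  have hpath : ∀ n, ∃ u w T, Pth (G n) u w n T := by
    intro n
    by_contra h
    push Not at h
    have := hfin n
    exact htd n (treedepthLe_of_nopath n h)
  obtain ⟨n, hn⟩ := ug_contained G F (hinf _ (UG G) (ug_diam G hdiam) (ug_ray G hpath))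
  exact hn.elim (fun φ => (hfree n).false φ)

/-! ### copies -/

theorem contained_of_cyc {V : Type} {H : SimpleGraph V} {v : V} {N : ℕ} {T : Finset V}
    (h : CycAt H v N T) : (SimpleGraph.cycleGraph N).IsContained H := by
  obtain ⟨hN, w, hw, hwv⟩ := h
  obtain ⟨f, h0, hn, _, h2, h3⟩ := hw.fn
  obtain ⟨M, rfl⟩ : ∃ M, N = M + 2 := ⟨N - 2, by omega⟩
  have e : M + 2 - 1 = M + 1 := by omega
  rw [e] at hn h2 h3
  have key : ∀ i j : Fin (M + 2), (j - i).val = 1 → H.Adj (f i.val) (f j.val) := by
    intro i j hij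
    rcases Nat.lt_or_ge i.val (M + 1) with hi | hi
    · have hj : j.val = i.val + 1 := by
        have h5 : j = i + 1 := by
          have h6 : j - i = 1 := Fin.ext (by rw [hij]; rfl)
          rw [← h6]
          abel
        rw [h5, Fin.val_add, Fin.val_one]
        exact Nat.mod_eq_of_lt (by omega)
      rw [hj]
      exact h3 i.val hi
    · have hi' : i.val = M + 1 := by omega
      have hj : j.val = 0 := by
        have h5 : j = i + 1 := by
          have h6 : j - i = 1 := Fin.ext (by rw [hij]; rfl)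
          rw [← h6]
          abel
        rw [h5, Fin.val_add, Fin.val_one, hi']
        exact Nat.mod_self _
      rw [hi', hj, hn, h0]
      exact hwv
  refine ⟨⟨⟨fun i => f i.val, ?_⟩, ?_⟩⟩
  · intro i j hij
    rw [SimpleGraph.cycleGraph_adj'] at hij
    rcases hij with hij | hij
    · exact (key j i hij).symm
    · exact key i j hij
  · intro i j hij
    exact Fin.ext (h2 i.val j.val (by omega) (by omega) hij)

end Q109.D3
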